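import Mathlib
import Pool.Agent.Helper114.AB.G
import Pool.Agent.Helper114.AB.H

/-!
# Bumps and the family of maps of the line
-/

open Set Filter Topology
open scoped ContDiff
open Pool.Agent.Helper114.AB

namespace Pool.Agent.H410R3.KS

/-- periodic bump, positive exactly on `(-w n / 2, w n / 2) + ℤ` -/
noncomputable def gb (n : ℕ) (y : ℝ) : ℝ :=
  expNegInvGlue (Real.cos (2 * Real.pi * y) - Real.cos (Real.pi * w n))

theorem gb_contDiff (n : ℕ) : ContDiff ℝ ∞ (gb n) := by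
  unfold gb
  refine expNegInvGlue.contDiff.comp ?_
  exact (Real.contDiff_cos.comp (contDiff_const.mul contDiff_id)).sub contDiff_const

theorem gb_periodic (n : ℕ) (y : ℝ) : gb n (y + 1) = gb n y := by
  unfold gb
  rw [mul_add, mul_one, Real.cos_add_two_pi]

theorem gb_nonneg (n : ℕ) (y : ℝ) : 0 ≤ gb n y := expNegInvGlue.nonneg _

theorem w_pos (n : ℕ) : 0 < w n := ka_w_pos n

theorem w_le (n : ℕ) : w n ≤ 1 / 4 := by
  unfold w
  rw [pow_add]
  have : ((1 : ℝ) / 2) ^ n ≤ 1 := pow_le_one₀ (by norm_num) (by norm_num)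
  nlinarith

theorem gb_pos {n : ℕ} {y : ℝ} (h : |y| < w n / 2) : 0 < gb n y := by
  unfold gb
  apply expNegInvGlue.pos_of_pos
  have hw := w_le n
  have hpi := Real.pi_pos
  rw [sub_pos, ← Real.cos_abs (2 * Real.pi * y)]
  have e : |2 * Real.pi * y| = 2 * Real.pi * |y| := by
    rw [abs_mul, abs_of_pos (by positivity)]
  rw [e]
  apply Real.cos_lt_cos_of_nonneg_of_le_pi
  · positivity
  · nlinarith
  · nlinarith

theorem gb_zero {n : ℕ} {y : ℝ} (h : w n / 2 ≤ |y|) (h' : |y| ≤ 1 - w n / 2) : gb n y = 0 := by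
  unfold gb
  rw [expNegInvGlue.zero_iff_nonpos]
  have hw := w_le n
  have hw0 := w_pos n
  have hpi := Real.pi_pos
  rw [sub_nonpos, ← Real.cos_abs (2 * Real.pi * y)]
  have e : |2 * Real.pi * y| = 2 * Real.pi * |y| := by
    rw [abs_mul, abs_of_pos (by positivity)]
  rw [e]
  rcases le_total |y| (1 / 2) with h1 | h1
  · apply Real.cos_le_cos_of_nonneg_of_le_pi
    · positivity
    · nlinarith
    · nlinarith
  · have e2 : Real.cos (2 * Real.pi * |y|) = Real.cos (2 * Real.pi * (1 - |y|)) := by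
      rw [show 2 * Real.pi * (1 - |y|) = 2 * Real.pi - 2 * Real.pi * |y| by ring,
        Real.cos_two_pi_sub]
    rw [e2]
    apply Real.cos_le_cos_of_nonneg_of_le_pi
    · positivity
    · nlinarith
    · nlinarith

theorem gb_bdd (n k : ℕ) : ∃ C, 0 ≤ C ∧ ∀ y, ‖iteratedFDeriv ℝ k (gb n) y‖ ≤ C := by
  have hc : Continuous (iteratedFDeriv ℝ k (gb n)) :=
    (gb_contDiff n).continuous_iteratedFDeriv (by exact_mod_cast le_top)
  have hp : Function.Periodic (iteratedFDeriv ℝ k (gb n)) 1 := by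
    intro y
    have h := iteratedFDeriv_comp_add_right (𝕜 := ℝ) (f := gb n) k (1 : ℝ) y
    rw [← h]
    congr 1
    funext z
    exact gb_periodic n z
  obtain ⟨C, hC⟩ := (isCompact_Icc (a := (0:ℝ)) (b := 1)).exists_bound_of_continuousOn hc.continuousOn
  refine ⟨max C 0, le_max_right _ _, fun y => ?_⟩
  obtain ⟨z, hz, he⟩ := hp.exists_mem_Ico₀ one_pos y
  rw [he]
  exact (hC z (Ico_subset_Icc_self hz)).trans (le_max_left _ _)

/-- bounds for the derivatives of the bumps -/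
noncomputable def Cb (n k : ℕ) : ℝ := (gb_bdd n k).choose

theorem Cb_nonneg (n k : ℕ) : 0 ≤ Cb n k := (gb_bdd n k).choose_spec.1

theorem le_Cb (n k : ℕ) (y : ℝ) : ‖iteratedFDeriv ℝ k (gb n) y‖ ≤ Cb n k :=
  (gb_bdd n k).choose_spec.2 y

/-- the heights -/
noncomputable def eps (n : ℕ) : ℝ :=
  (1 / 2) ^ (n + 2) / (1 + ∑ k ∈ Finset.range (n + 2), Cb n k * (1 + 2 ^ n) ^ k)

theorem eps_den_pos (n : ℕ) :
    0 < 1 + ∑ k ∈ Finset.range (n + 2), Cb n k * (1 + 2 ^ n) ^ k := by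
  have : 0 ≤ ∑ k ∈ Finset.range (n + 2), Cb n k * (1 + (2:ℝ) ^ n) ^ k :=
    Finset.sum_nonneg fun k _ => mul_nonneg (Cb_nonneg n k) (by positivity)
  linarith

theorem eps_pos (n : ℕ) : 0 < eps n := div_pos (by positivity) (eps_den_pos n)

theorem eps_bound {n k : ℕ} (h : k < n + 2) :
    eps n * (Cb n k * (1 + 2 ^ n) ^ k) ≤ (1 / 2) ^ (n + 2) := by
  unfold eps
  rw [div_mul_eq_mul_div, div_le_iff₀ (eps_den_pos n)]
  refine mul_le_mul_of_nonneg_left ?_ (by positivity)
  have := Finset.single_le_sum (f := fun k => Cb n k * (1 + (2:ℝ) ^ n) ^ k)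
    (fun k _ => mul_nonneg (Cb_nonneg n k) (by positivity)) (Finset.mem_range.2 h)
  linarith


/-- the Banach space of the parameters -/
abbrev PP : Type := BoundedContinuousFunction ℕ ℝ

/-- `(p, x) ↦ x - 2 ^ n * p n` -/
noncomputable def Ln (n : ℕ) : (PP × ℝ) →L[ℝ] ℝ :=
  ContinuousLinearMap.snd ℝ PP ℝ -
    (2 ^ n : ℝ) • ((BoundedContinuousFunction.evalCLM ℝ n).comp (ContinuousLinearMap.fst ℝ PP ℝ))

theorem Ln_apply (n : ℕ) (q : PP × ℝ) : Ln n q = q.2 - 2 ^ n * q.1 n := by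
  simp [Ln]

theorem norm_Ln_le (n : ℕ) : ‖Ln n‖ ≤ 1 + 2 ^ n := by
  refine ContinuousLinearMap.opNorm_le_bound _ (by positivity) (fun q => ?_)
  rw [Ln_apply]
  have h1 : ‖q.2‖ ≤ ‖q‖ := norm_snd_le q
  have h2 : ‖q.1 n‖ ≤ ‖q‖ := (q.1.norm_coe_le_norm n).trans (norm_fst_le q)
  calc ‖q.2 - 2 ^ n * q.1 n‖ ≤ ‖q.2‖ + ‖(2:ℝ) ^ n * q.1 n‖ := norm_sub_le _ _
    _ = ‖q.2‖ + 2 ^ n * ‖q.1 n‖ := by rw [norm_mul]; simp
    _ ≤ ‖q‖ + 2 ^ n * ‖q‖ := by gcongr
    _ = (1 + 2 ^ n) * ‖q‖ := by ring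

/-- the `n`-th term -/
noncomputable def tm (n : ℕ) (q : PP × ℝ) : ℝ := eps n * gb n (Ln n q)

theorem tm_contDiff (n : ℕ) : ContDiff ℝ ∞ (tm n) :=
  contDiff_const.mul ((gb_contDiff n).comp (Ln n).contDiff)

theorem tm_bound (n k : ℕ) (q : PP × ℝ) :
    ‖iteratedFDeriv ℝ k (tm n) q‖ ≤ eps n * (Cb n k * (1 + 2 ^ n) ^ k) := by
  have h0 : ContDiff ℝ ∞ (eps n • gb n) := contDiff_const.smul (gb_contDiff n)
  have h1 : tm n = (eps n • gb n) ∘ Ln n := by
    funext q; rfl
  rw [h1, (Ln n).iteratedFDeriv_comp_right h0 q (i := k) (by exact_mod_cast le_top)]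
  refine (ContinuousMultilinearMap.norm_compContinuousLinearMap_le _ _).trans ?_
  rw [Finset.prod_const, Finset.card_univ, Fintype.card_fin, ← mul_assoc]
  have h2 : ‖iteratedFDeriv ℝ k (eps n • gb n) (Ln n q)‖ ≤ eps n * Cb n k := by
    rw [iteratedFDeriv_const_smul_apply
      ((gb_contDiff n).of_le (by exact_mod_cast le_top)).contDiffAt,
      norm_smul, Real.norm_of_nonneg (eps_pos n).le]
    exact mul_le_mul_of_nonneg_left (le_Cb n k _) (eps_pos n).le
  exact mul_le_mul h2 (pow_le_pow_left₀ (norm_nonneg _) (norm_Ln_le n) k)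
    (by positivity) (mul_nonneg (eps_pos n).le (Cb_nonneg n k))

theorem tm_summable (k : ℕ) : Summable fun n => eps n * (Cb n k * (1 + 2 ^ n) ^ k) := by
  have h1 : Summable fun n : ℕ => ((1:ℝ) / 2) ^ (n + 2) := by
    have := summable_geometric_two.mul_right ((1:ℝ)/4)
    refine this.congr fun n => ?_
    rw [pow_add]; norm_num
  refine Summable.of_norm_bounded_eventually_nat h1 ?_
  filter_upwards [eventually_ge_atTop k] with n hn
  rw [Real.norm_of_nonneg (mul_nonneg (eps_pos n).le (mul_nonneg (Cb_nonneg n k) (by positivity)))]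
  exact eps_bound (by omega)

/-- the displacement -/
noncomputable def Ph (q : PP × ℝ) : ℝ := ∑' n, tm n q

theorem Ph_contDiff : ContDiff ℝ ∞ Ph :=
  contDiff_tsum (v := fun k n => eps n * (Cb n k * (1 + 2 ^ n) ^ k)) (fun n => tm_contDiff n)
    (fun k _ => tm_summable k) (fun k n q _ => tm_bound n k q)

theorem tm_nonneg (n : ℕ) (q : PP × ℝ) : 0 ≤ tm n q := mul_nonneg (eps_pos n).le (gb_nonneg _ _)

theorem tm_summable' (q : PP × ℝ) : Summable fun n => tm n q := by
  refine Summable.of_norm_bounded (tm_summable 0) fun n => ?_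
  have := tm_bound n 0 q
  rwa [norm_iteratedFDeriv_zero] at this

theorem Ph_periodic (p : PP) (x : ℝ) : Ph (p, x + 1) = Ph (p, x) := by
  unfold Ph
  congr 1
  funext n
  unfold tm
  rw [Ln_apply, Ln_apply]
  simp only
  rw [show x + 1 - 2 ^ n * p n = (x - 2 ^ n * p n) + 1 by ring, gb_periodic]

/-- the displacement is a contraction in the space variable -/
theorem gb_lip (n : ℕ) (x y : ℝ) : |gb n x - gb n y| ≤ Cb n 1 * |x - y| := by
  have h := Convex.norm_image_sub_le_of_norm_fderiv_le (𝕜 := ℝ) (f := gb n) (C := Cb n 1)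
    (s := Set.univ) (x := y) (y := x)
    (fun z _ => ((gb_contDiff n).differentiable (by simp)).differentiableAt) (fun z _ => ?_)
    convex_univ (mem_univ _) (mem_univ _)
  · simpa using h
  · have := le_Cb n 1 z
    rwa [norm_iteratedFDeriv_one] at this

theorem eps_lip (n : ℕ) : eps n * Cb n 1 ≤ (1 / 2) ^ (n + 2) := by
  have h := eps_bound (n := n) (k := 1) (by omega)
  have h1 : Cb n 1 ≤ Cb n 1 * (1 + 2 ^ n) ^ 1 := by
    have := Cb_nonneg n 1
    have h2 : (0:ℝ) ≤ 2 ^ n := by positivity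
    nlinarith
  exact (mul_le_mul_of_nonneg_left h1 (eps_pos n).le).trans h

theorem Ph_lip (p : PP) (x y : ℝ) : |Ph (p, x) - Ph (p, y)| ≤ 1 / 2 * |x - y| := by
  unfold Ph
  rw [← (tm_summable' _).tsum_sub (tm_summable' _)]
  have h1 : HasSum (fun n : ℕ => ((1:ℝ) / 2) ^ (n + 2) * |x - y|) (1 / 2 * |x - y|) := by
    refine HasSum.mul_right _ ?_
    exact ka_w_hasSum
  rw [← Real.norm_eq_abs (∑' _, _)]
  refine tsum_of_norm_bounded h1 fun n => ?_
  unfold tm
  rw [← mul_sub, norm_mul, Real.norm_of_nonneg (eps_pos n).le, Ln_apply, Ln_apply]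
  have h2 := gb_lip n (x - 2 ^ n * p n) (y - 2 ^ n * p n)
  rw [show x - 2 ^ n * p n - (y - 2 ^ n * p n) = x - y by ring] at h2
  calc eps n * ‖gb n (x - 2 ^ n * p n) - gb n (y - 2 ^ n * p n)‖
      ≤ eps n * (Cb n 1 * |x - y|) := mul_le_mul_of_nonneg_left h2 (eps_pos n).le
    _ = (eps n * Cb n 1) * |x - y| := by ring
    _ ≤ _ := mul_le_mul_of_nonneg_right (eps_lip n) (abs_nonneg _)

/-- the lifts of the circle maps -/
noncomputable def fl (p : PP) (x : ℝ) : ℝ := x + Ph (p, x)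

theorem fl_strictMono (p : PP) : StrictMono (fl p) := by
  intro x y hxy
  have h := Ph_lip p x y
  rw [abs_sub_comm x y, abs_of_pos (sub_pos.2 hxy)] at h
  have h2 := (abs_le.1 h).2
  unfold fl
  linarith

theorem fl_add_one (p : PP) (x : ℝ) : fl p (x + 1) = fl p x + 1 := by
  unfold fl
  rw [Ph_periodic]; ring

theorem fl_contDiff' : ContDiff ℝ ∞ (fun q : PP × ℝ => fl q.1 q.2) :=
  contDiff_snd.add Ph_contDiff

theorem fl_contDiff (p : PP) : ContDiff ℝ ∞ (fl p) :=
  fl_contDiff'.comp (contDiff_const.prodMk contDiff_id)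

theorem fl_continuous (p : PP) : Continuous (fl p) := (fl_contDiff p).continuous

theorem fl_tendsto_top (p : PP) : Tendsto (fl p) atTop atTop := by
  have h : ∀ x, 0 ≤ x → fl p 0 + 1 / 2 * x ≤ fl p x := by
    intro x hx
    have h := Ph_lip p x 0
    rw [sub_zero, abs_of_nonneg hx] at h
    have h2 := (abs_le.1 h).1
    unfold fl
    linarith
  refine tendsto_atTop_mono' _ ((eventually_ge_atTop 0).mono h) ?_
  exact tendsto_atTop_add_const_left _ _ (tendsto_id.const_mul_atTop (by norm_num))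

theorem fl_tendsto_bot (p : PP) : Tendsto (fl p) atBot atBot := by
  have h : ∀ x, x ≤ 0 → fl p x ≤ fl p 0 + 1 / 2 * x := by
    intro x hx
    have h := Ph_lip p x 0
    rw [sub_zero, abs_of_nonpos hx] at h
    have h2 := (abs_le.1 h).2
    unfold fl
    linarith
  refine tendsto_atBot_mono' _ ((eventually_le_atBot 0).mono h) ?_
  exact tendsto_atBot_add_const_left _ _ (tendsto_id.const_mul_atBot (by norm_num))

theorem fl_surjective (p : PP) : Function.Surjective (fl p) :=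
  (fl_continuous p).surjective (fl_tendsto_top p) (fl_tendsto_bot p)

/-- the lifts as homeomorphisms of the line -/
noncomputable def flH (p : PP) : ℝ ≃ₜ ℝ :=
  ((fl_strictMono p).orderIsoOfSurjective _ (fl_surjective p)).toHomeomorph

theorem flH_apply (p : PP) (x : ℝ) : flH p x = fl p x := rfl

theorem fl_deriv_pos (p : PP) (x : ℝ) : deriv (fl p) x ≠ 0 := by
  have hd : HasDerivAt (fl p) (deriv (fl p) x) x :=
    (((fl_contDiff p).differentiable (by simp)).differentiableAt).hasDerivAt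
  have h1 : 1 / 2 ≤ deriv (fl p) x := by
    refine ge_of_tendsto (hd.tendsto_slope_zero_right) ?_
    filter_upwards [self_mem_nhdsWithin] with t ht
    have ht' : (0:ℝ) < t := ht
    have h := Ph_lip p (x + t) x
    rw [add_sub_cancel_left, abs_of_pos ht'] at h
    have h2 := (abs_le.1 h).1
    rw [smul_eq_mul, ← div_eq_inv_mul, le_div_iff₀ ht']
    unfold fl
    linarith
  linarith

theorem flH_symm_contDiff (p : PP) : ContDiff ℝ ∞ (flH p).symm :=
  (flH p).contDiff_symm_deriv (f' := deriv (fl p)) (fl_deriv_pos p)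
    (fun x => (((fl_contDiff p).differentiable (by simp)).differentiableAt).hasDerivAt)
    (fl_contDiff p)

end Pool.Agent.H410R3.KS
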