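import Mathlib

/-!
# Conjugating two increasing maps of the interval without interior fixed points
-/

open Set Filter Topology

namespace Pool.Agent.H410R3.KS

section

variable (e : ℝ ≃o ℝ)

theorem zp_fix (x : ℝ) (h : e x = x) (n : ℤ) : (e ^ n) x = x := by
  induction n with
  | zero => rfl
  | succ n ih =>
    rw [zpow_add, zpow_one, RelIso.mul_apply, h, ih]
  | pred n ih =>
    rw [zpow_sub, zpow_one, RelIso.mul_apply]
    have : (e⁻¹) x = x := by
      have h2 : (e⁻¹) (e x) = x := e.symm_apply_apply x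
      rwa [h] at h2
    rw [this, ih]

theorem zp_succ (x : ℝ) (n : ℤ) : (e ^ (n + 1)) x = e ((e ^ n) x) := by
  rw [add_comm, zpow_add, zpow_one, RelIso.mul_apply]

theorem zp_succ' (x : ℝ) (n : ℤ) : (e ^ (n + 1)) x = (e ^ n) (e x) := by
  rw [zpow_add, zpow_one, RelIso.mul_apply]

theorem zp_neg (x : ℝ) (n : ℤ) : (e ^ n) ((e ^ (-n)) x) = x := by
  rw [← RelIso.mul_apply, ← zpow_add, add_neg_cancel, zpow_zero]
  rfl

theorem zp_neg' (x : ℝ) (n : ℤ) : (e ^ (-n)) ((e ^ n) x) = x := by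
  rw [← RelIso.mul_apply, ← zpow_add, neg_add_cancel, zpow_zero]
  rfl

variable {e} (h0 : e 0 = 0) (h1 : e 1 = 1) (hlt : ∀ t ∈ Ioo (0:ℝ) 1, t < e t)

include h0 h1 in
theorem zp_mem {x : ℝ} (hx : x ∈ Ioo (0:ℝ) 1) (n : ℤ) : (e ^ n) x ∈ Ioo (0:ℝ) 1 := by
  constructor
  · have := (e ^ n).strictMono hx.1
    rwa [zp_fix e 0 h0] at this
  · have := (e ^ n).strictMono hx.2
    rwa [zp_fix e 1 h1] at this

include h0 h1 hlt in
theorem zp_mono {x : ℝ} (hx : x ∈ Ioo (0:ℝ) 1) : StrictMono (fun n : ℤ => (e ^ n) x) := by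
  apply strictMono_int_of_lt_succ
  intro n
  rw [zp_succ]
  exact hlt _ (zp_mem h0 h1 hx n)

include h0 h1 hlt in
theorem zp_unbdd {x y : ℝ} (hx : x ∈ Ioo (0:ℝ) 1) (hy : y ∈ Ioo (0:ℝ) 1) :
    ∃ n : ℕ, x < (e ^ (n : ℤ)) y := by
  by_contra hcon
  push Not at hcon
  set v : ℕ → ℝ := fun n => (e ^ (n : ℤ)) y with hv
  have hm : Monotone v := by
    intro a b hab
    exact (zp_mono h0 h1 hlt hy).monotone (by exact_mod_cast hab)
  have hb : BddAbove (range v) := ⟨x, by rintro _ ⟨n, rfl⟩; exact hcon n⟩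
  have hl := tendsto_atTop_ciSup hm hb
  set s := ⨆ n, v n
  have hs1 : s ≤ x := ciSup_le hcon
  have hs0 : 0 < s := by
    have := le_ciSup hb 0
    have h2 : v 0 = y := by simp [hv]
    rw [h2] at this
    exact hy.1.trans_le this
  have hl2 : Tendsto (fun n => v (n + 1)) atTop (𝓝 (e s)) := by
    have := (e.continuous.tendsto s).comp hl
    refine this.congr fun n => ?_
    simp only [hv, Function.comp]
    rw [← zp_succ]
    push_cast
    rfl
  have hl3 : Tendsto (fun n => v (n + 1)) atTop (𝓝 s) := hl.comp (tendsto_add_atTop_nat 1)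
  have := tendsto_nhds_unique hl2 hl3
  have h3 := hlt s ⟨hs0, hs1.trans_lt hx.2⟩
  linarith

include h0 h1 hlt in
theorem zp_exists {x : ℝ} (hx : x ∈ Ioo (0:ℝ) 1) :
    ∃ n : ℤ, (e ^ n) (1 / 2) ≤ x ∧ x < (e ^ (n + 1)) (1 / 2) := by
  have hh : (1 / 2 : ℝ) ∈ Ioo (0:ℝ) 1 := by constructor <;> norm_num
  have hm := zp_mono h0 h1 hlt hh
  obtain ⟨n1, hn1⟩ := zp_unbdd h0 h1 hlt hx hh
  obtain ⟨n2, hn2⟩ := zp_unbdd h0 h1 hlt hh hx
  have h3 : (e ^ (-(n2:ℤ))) (1 / 2) ≤ x := by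
    have := (e ^ (-(n2:ℤ))).strictMono hn2
    rw [zp_neg'] at this
    exact this.le
  obtain ⟨n, hn, hmax⟩ := Int.exists_greatest_of_bdd (P := fun n => (e ^ n) (1 / 2) ≤ x)
    ⟨n1, fun z hz => by
      by_contra hz'
      push Not at hz'
      have := hm hz'
      simp only at this
      linarith⟩ ⟨_, h3⟩
  refine ⟨n, hn, ?_⟩
  by_contra hcon
  push Not at hcon
  have := hmax _ hcon
  omega

end

/-- the number of the fundamental domain -/
theorem conj_exists (e e' : ℝ ≃o ℝ) (h0 : e 0 = 0) (h1 : e 1 = 1)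
    (hlt : ∀ t ∈ Ioo (0:ℝ) 1, t < e t) (h0' : e' 0 = 0) (h1' : e' 1 = 1)
    (hlt' : ∀ t ∈ Ioo (0:ℝ) 1, t < e' t) :
    ∃ κ : ℝ → ℝ, Continuous κ ∧ Monotone κ ∧ (∀ s ≤ 0, κ s = 0) ∧ (∀ s, 1 ≤ s → κ s = 1) ∧
      StrictMonoOn κ (Icc 0 1) ∧ ∀ t ∈ Icc (0:ℝ) 1, κ (e t) = e' (κ t) := by
  have hh : (1 / 2 : ℝ) ∈ Ioo (0:ℝ) 1 := by constructor <;> norm_num
  -- the affine map between the fundamental domains
  set a : ℝ := e (1 / 2) - 1 / 2 with ha
  set a' : ℝ := e' (1 / 2) - 1 / 2 with ha'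
  have hapos : 0 < a := sub_pos.2 (hlt _ hh)
  have hapos' : 0 < a' := sub_pos.2 (hlt' _ hh)
  set l : ℝ → ℝ := fun x => 1 / 2 + (x - 1 / 2) * (a' / a) with hl
  have hlm : StrictMono l := by
    intro x y hxy
    have : 0 < a' / a := div_pos hapos' hapos
    simp only [hl]
    nlinarith
  have hl1 : l (1 / 2) = 1 / 2 := by simp [hl]
  have hl2 : l (e (1 / 2)) = e' (1 / 2) := by
    simp only [hl]
    rw [← ha, mul_div_cancel₀ _ hapos.ne', ha']
    ring
  have hex : ∀ x : ℝ, x ∈ Ioo (0:ℝ) 1 → ∃ n : ℤ, (e ^ n) (1 / 2) ≤ x ∧ x < (e ^ (n + 1)) (1 / 2) :=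
    fun x hx => zp_exists h0 h1 hlt hx
  have hex' : ∀ x : ℝ, x ∈ Ioo (0:ℝ) 1 →
      ∃ n : ℤ, (e' ^ n) (1 / 2) ≤ x ∧ x < (e' ^ (n + 1)) (1 / 2) :=
    fun x hx => zp_exists h0' h1' hlt' hx
  have hm := zp_mono h0 h1 hlt hh
  have hm' := zp_mono h0' h1' hlt' hh
  classical
  set κ : ℝ → ℝ := fun x => if x ≤ 0 then 0 else if 1 ≤ x then 1 else
    if hx : x ∈ Ioo (0:ℝ) 1 then (e' ^ (hex x hx).choose) (l ((e ^ (-(hex x hx).choose)) x)) else 0
    with hκ
  have k0 : ∀ s ≤ 0, κ s = 0 := fun s hs => if_pos hs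
  have k1 : ∀ s, 1 ≤ s → κ s = 1 := fun s hs => by
    simp only [hκ]
    rw [if_neg (by linarith), if_pos hs]
  -- the value of κ
  have uniq : ∀ x (n m : ℤ), (e ^ n) (1 / 2) ≤ x → x < (e ^ (n + 1)) (1 / 2) →
      (e ^ m) (1 / 2) ≤ x → x < (e ^ (m + 1)) (1 / 2) → n = m := by
    intro x n m h2 h3 h4 h5
    have h6 : n < m + 1 := hm.lt_iff_lt.1 (h2.trans_lt h5)
    have h7 : m < n + 1 := hm.lt_iff_lt.1 (h4.trans_lt h3)
    omega
  have kv : ∀ x ∈ Ioo (0:ℝ) 1, ∀ n : ℤ, (e ^ n) (1 / 2) ≤ x → x < (e ^ (n + 1)) (1 / 2) →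
      κ x = (e' ^ n) (l ((e ^ (-n)) x)) := by
    intro x hx n h2 h3
    simp only [hκ]
    rw [if_neg (by linarith [hx.1]), if_neg (by linarith [hx.2]), dif_pos hx]
    have := (hex x hx).choose_spec
    rw [uniq x _ n this.1 this.2 h2 h3]
  -- bounds for the value
  have kb : ∀ x ∈ Ioo (0:ℝ) 1, ∀ n : ℤ, (e ^ n) (1 / 2) ≤ x → x < (e ^ (n + 1)) (1 / 2) →
      (e' ^ n) (1 / 2) ≤ κ x ∧ κ x < (e' ^ (n + 1)) (1 / 2) := by
    intro x hx n h2 h3
    rw [kv x hx n h2 h3]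
    constructor
    · apply (e' ^ n).monotone
      rw [← hl1]
      apply hlm.monotone
      have := (e ^ (-n)).monotone h2
      rwa [zp_neg'] at this
    · rw [zp_succ']
      apply (e' ^ n).strictMono
      rw [← hl2]
      apply hlm
      have := (e ^ (-n)).strictMono h3
      rwa [zp_succ', zp_neg'] at this
  have kmem : ∀ x ∈ Ioo (0:ℝ) 1, κ x ∈ Ioo (0:ℝ) 1 := by
    intro x hx
    obtain ⟨n, h2, h3⟩ := hex x hx
    obtain ⟨h4, h5⟩ := kb x hx n h2 h3
    exact ⟨(zp_mem h0' h1' hh n).1.trans_le h4, h5.trans (zp_mem h0' h1' hh (n + 1)).2⟩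
  have kst : StrictMonoOn κ (Icc 0 1) := by
    intro x hx y hy hxy
    rcases eq_or_lt_of_le hx.1 with h | h
    · rw [← h, k0 0 le_rfl]
      rcases eq_or_lt_of_le hy.2 with h' | h'
      · rw [k1 y h'.ge]; norm_num
      · exact (kmem y ⟨h ▸ hxy, h'⟩).1
    · rcases eq_or_lt_of_le hy.2 with h' | h'
      · rw [k1 y h'.ge]
        exact (kmem x ⟨h, h' ▸ hxy⟩).2
      · have hx' : x ∈ Ioo (0:ℝ) 1 := ⟨h, hxy.trans h'⟩
        have hy' : y ∈ Ioo (0:ℝ) 1 := ⟨h.trans hxy, h'⟩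
        obtain ⟨n, h2, h3⟩ := hex x hx'
        obtain ⟨m, h4, h5⟩ := hex y hy'
        have hnm : n < m + 1 := hm.lt_iff_lt.1 (h2.trans_lt (hxy.trans h5))
        rcases eq_or_lt_of_le (Int.lt_add_one_iff.1 hnm) with h6 | h6
        · subst h6
          rw [kv x hx' n h2 h3, kv y hy' n h4 h5]
          exact (e' ^ n).strictMono (hlm ((e ^ (-n)).strictMono hxy))
        · refine (kb x hx' n h2 h3).2.trans_le (le_trans ?_ (kb y hy' m h4 h5).1)
          exact hm'.monotone (by omega)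
  have kran : ∀ x, κ x ∈ Icc (0:ℝ) 1 := by
    intro x
    rcases le_or_gt x 0 with h | h
    · rw [k0 x h]; constructor <;> norm_num
    · rcases le_or_gt 1 x with h' | h'
      · rw [k1 x h']; constructor <;> norm_num
      · exact Ioo_subset_Icc_self (kmem x ⟨h, h'⟩)
  have kmono : Monotone κ := by
    intro x y hxy
    rcases le_or_gt x 0 with h | h
    · rw [k0 x h]; exact (kran y).1
    · rcases le_or_gt 1 y with h' | h'
      · rw [k1 y h']; exact (kran x).2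
      · exact kst.monotoneOn ⟨h.le, (hxy.trans h'.le)⟩ ⟨(h.le.trans hxy), h'.le⟩ hxy
  have ksurj : ∀ y ∈ Icc (0:ℝ) 1, ∃ x, κ x = y := by
    intro y hy
    rcases eq_or_lt_of_le hy.1 with h | h
    · exact ⟨0, by rw [k0 0 le_rfl, h]⟩
    · rcases eq_or_lt_of_le hy.2 with h' | h'
      · exact ⟨1, by rw [k1 1 le_rfl, h']⟩
      · obtain ⟨n, h2, h3⟩ := hex' y ⟨h, h'⟩
        -- the preimage
        set z : ℝ := 1 / 2 + ((e' ^ (-n)) y - 1 / 2) * (a / a') with hz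
        have hlz : l z = (e' ^ (-n)) y := by
          simp only [hl, hz]
          have := hapos.ne'
          have := hapos'.ne'
          field_simp
          ring
        have hz1 : 1 / 2 ≤ z := by
          rw [← hlm.le_iff_le, hl1, hlz]
          have := (e' ^ (-n)).monotone h2
          rwa [zp_neg'] at this
        have hz2 : z < e (1 / 2) := by
          rw [← hlm.lt_iff_lt, hl2, hlz]
          have := (e' ^ (-n)).strictMono h3
          rwa [zp_succ', zp_neg'] at this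
        have hz3 : z ∈ Ioo (0:ℝ) 1 := ⟨by linarith, hz2.trans (by
          have := (zp_mem h0 h1 hh 1).2
          rwa [zpow_one] at this)⟩
        refine ⟨(e ^ n) z, ?_⟩
        rw [kv _ (zp_mem h0 h1 hz3 n) n ((e ^ n).monotone hz1) ?_, zp_neg', hlz, zp_neg]
        rw [zp_succ']
        exact (e ^ n).strictMono hz2
  have kcont : Continuous κ := by
    have hc : Continuous (fun x => (⟨κ x, kran x⟩ : Icc (0:ℝ) 1)) := by
      apply Monotone.continuous_of_surjective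
      · intro x y hxy
        exact kmono hxy
      · rintro ⟨y, hy⟩
        obtain ⟨x, hx⟩ := ksurj y hy
        exact ⟨x, Subtype.ext hx⟩
    exact continuous_subtype_val.comp hc
  refine ⟨κ, kcont, kmono, k0, k1, kst, ?_⟩
  intro t ht
  rcases eq_or_lt_of_le ht.1 with h | h
  · rw [← h, h0, k0 0 le_rfl, h0']
  · rcases eq_or_lt_of_le ht.2 with h' | h'
    · rw [h', h1, k1 1 le_rfl, h1']
    · obtain ⟨n, h2, h3⟩ := hex t ⟨h, h'⟩
      have hmem : e t ∈ Ioo (0:ℝ) 1 := by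
        have := zp_mem h0 h1 (x := t) ⟨h, h'⟩ 1
        rwa [zpow_one] at this
      rw [kv t ⟨h, h'⟩ n h2 h3, kv (e t) hmem (n + 1) ?_ ?_]
      · rw [zp_succ]
        congr 3
        rw [show -(n + 1) = -n - 1 by ring, zpow_sub, zpow_one, RelIso.mul_apply]
        congr 1
        exact e.symm_apply_apply t
      · rw [zp_succ]; exact e.monotone h2
      · rw [zp_succ]; exact e.strictMono h3

end Pool.Agent.H410R3.KS
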