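import Mathlib
import Pool.Agent.H410R3.KS.Bump
import Pool.Agent.H410R3.KS.Conj

/-!
# Circle maps
-/

open Set Filter Topology
open scoped ContDiff
open Pool.Agent.Helper114.AB

namespace Pool.Agent.H410R3.KS

section circ

variable (h : ℝ ≃ₜ ℝ) (hh : ∀ x, h (x + 1) = h x + 1)

include hh in
theorem symm_add_one (x : ℝ) : h.symm (x + 1) = h.symm x + 1 := by
  apply h.injective
  rw [hh, h.apply_symm_apply, h.apply_symm_apply]

theorem per_coe (f : ℝ → ℝ) (hf : ∀ x, f (x + 1) = f x + 1) :
    Function.Periodic (fun x => ((f x : ℝ) : T1)) 1 := by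
  intro x
  simp only [hf, AddCircle.coe_add, AddCircle.coe_period, add_zero]

/-- descent to the circle -/
noncomputable def desc (f : ℝ → ℝ) (hf : ∀ x, f (x + 1) = f x + 1) : T1 → T1 :=
  (per_coe f hf).lift

theorem desc_coe (f : ℝ → ℝ) (hf : ∀ x, f (x + 1) = f x + 1) (x : ℝ) :
    desc f hf (x : T1) = ((f x : ℝ) : T1) := rfl

theorem desc_continuous (f : ℝ → ℝ) (hf : ∀ x, f (x + 1) = f x + 1) (hc : Continuous f) :
    Continuous (desc f hf) := by
  have h1 : Continuous (fun x => ((f x : ℝ) : T1)) := (AddCircle.continuous_mk' 1).comp hc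
  exact continuous_coinduced_dom.2 h1

/-- the circle homeomorphism with lift `h` -/
noncomputable def circH : T1 ≃ₜ T1 where
  toFun := desc h hh
  invFun := desc h.symm (symm_add_one h hh)
  left_inv z := by
    induction z using QuotientAddGroup.induction_on with
    | H x =>
      show desc h.symm (symm_add_one h hh) (desc h hh (x : T1)) = (x : T1)
      rw [desc_coe, desc_coe, h.symm_apply_apply]
  right_inv z := by
    induction z using QuotientAddGroup.induction_on with
    | H x =>
      show desc h hh (desc h.symm (symm_add_one h hh) (x : T1)) = (x : T1)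
      rw [desc_coe, desc_coe, h.apply_symm_apply]
  continuous_toFun := desc_continuous _ _ h.continuous
  continuous_invFun := desc_continuous _ _ h.symm.continuous

theorem circH_coe (x : ℝ) : circH h hh (x : T1) = ((h x : ℝ) : T1) := rfl

theorem circH_symm_coe (x : ℝ) : (circH h hh).symm (x : T1) = ((h.symm x : ℝ) : T1) := rfl

end circ

/-- the parameter in the Banach space -/
noncomputable def emb (a : Pm) : PP :=
  BoundedContinuousFunction.ofNormedAddCommGroupDiscrete (fun n => (1 / 2) ^ n * (a n : ℝ)) 1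
    (fun n => by
      have h := (a n).2
      have h2 : ((1:ℝ) / 2) ^ n ≤ 1 := pow_le_one₀ (by norm_num) (by norm_num)
      rw [Real.norm_of_nonneg (mul_nonneg (by positivity) h.1)]
      exact mul_le_one₀ h2 h.1 h.2)

theorem emb_apply (a : Pm) (n : ℕ) : emb a n = (1 / 2) ^ n * (a n : ℝ) := rfl

theorem two_emb (a : Pm) (n : ℕ) : 2 ^ n * emb a n = (a n : ℝ) := by
  rw [emb_apply, ← mul_assoc, ← mul_pow]
  norm_num

theorem emb_continuous : Continuous emb := by
  -- the basis vectors
  let dv : ℕ → PP := fun n => BoundedContinuousFunction.ofNormedAddCommGroupDiscrete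
    (fun m => if m = n then 1 else 0) 1 (fun m => by split_ifs <;> simp)
  have hdv : ∀ n, ‖dv n‖ ≤ 1 := fun n =>
    BoundedContinuousFunction.norm_ofNormedAddCommGroup_le _ zero_le_one _
  have h1 : ∀ a, HasSum (fun n => ((1 / 2) ^ n * (a n : ℝ)) • dv n) (emb a) := by
    intro a
    have hs : Summable (fun n => ((1 / 2) ^ n * (a n : ℝ)) • dv n) := by
      refine Summable.of_norm_bounded summable_geometric_two fun n => ?_
      rw [norm_smul, Real.norm_of_nonneg (mul_nonneg (by positivity) (a n).2.1)]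
      have h2 := (a n).2
      have h3 : (0:ℝ) ≤ (1/2)^n := by positivity
      calc (1 / 2) ^ n * (a n : ℝ) * ‖dv n‖ ≤ (1 / 2) ^ n * 1 * 1 := by
            gcongr
            · exact h2.2
            · exact hdv n
        _ = _ := by ring
    have he : ∑' n, ((1 / 2) ^ n * (a n : ℝ)) • dv n = emb a := by
      ext m
      have h2 := (BoundedContinuousFunction.evalCLM ℝ m : PP →L[ℝ] ℝ).map_tsum hs
      simp only [BoundedContinuousFunction.evalCLM_apply] at h2
      rw [h2, tsum_eq_single m]
      · simp [dv, emb_apply]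
      · intro b hb
        simp [dv, Ne.symm hb]
    rw [← he]
    exact hs.hasSum
  have h2 : emb = fun a => ∑' n, ((1 / 2) ^ n * (a n : ℝ)) • dv n := by
    funext a
    exact (h1 a).tsum_eq.symm
  rw [h2]
  refine continuous_tsum (u := fun n => (1/2)^n) (fun n => ?_) summable_geometric_two (fun n a => ?_)
  · have h3 : Continuous fun a : Pm => ((a n : ℝ)) :=
      continuous_subtype_val.comp (continuous_apply n)
    exact (h3.const_mul ((1 / 2) ^ n)).smul continuous_const
  · rw [norm_smul, Real.norm_of_nonneg (mul_nonneg (by positivity) (a n).2.1)]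
    have h2 := (a n).2
    have h3 : (0:ℝ) ≤ (1/2)^n := by positivity
    calc (1 / 2) ^ n * (a n : ℝ) * ‖dv n‖ ≤ (1 / 2) ^ n * 1 * 1 := by
          gcongr
          · exact h2.2
          · exact hdv n
      _ = _ := by ring

/-- the circle homeomorphisms of the family -/
noncomputable def circ (p : PP) : T1 ≃ₜ T1 := circH (flH p) (fl_add_one p)

theorem circ_coe (p : PP) (x : ℝ) : circ p (x : T1) = ((fl p x : ℝ) : T1) := rfl

/-- the centres of the slots of an order -/
noncomputable def ctr {r : ℕ → ℕ → Prop} (hr : STO r) : Pm := fun n =>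
  ⟨aL r n + w n / 2, by
    have h1 := aL_nonneg r n
    have h2 := aL_le_half hr n
    have h3 := w_pos n
    constructor <;> linarith⟩

/-- the circle homeomorphism of an order -/
noncomputable def oc {r : ℕ → ℕ → Prop} (hr : STO r) : T1 ≃ₜ T1 := circ (emb (ctr hr))

/-- its lift -/
noncomputable def ol {r : ℕ → ℕ → Prop} (hr : STO r) : ℝ → ℝ := fl (emb (ctr hr))

theorem oc_coe {r : ℕ → ℕ → Prop} (hr : STO r) (x : ℝ) : oc hr (x : T1) = ((ol hr x : ℝ) : T1) := rfl

theorem tm_ctr {r : ℕ → ℕ → Prop} (hr : STO r) (n : ℕ) (x : ℝ) :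
    tm n (emb (ctr hr), x) = eps n * gb n (x - (aL r n + w n / 2)) := by
  unfold tm
  rw [Ln_apply]
  simp only
  rw [two_emb]
  rfl

theorem tm_zero {r : ℕ → ℕ → Prop} (hr : STO r) (n : ℕ) {x : ℝ} (h0 : 0 ≤ x) (h1 : x ≤ 1)
    (h : x ≤ aL r n ∨ aL r n + w n ≤ x) : tm n (emb (ctr hr), x) = 0 := by
  rw [tm_ctr, gb_zero, mul_zero]
  · rcases h with h | h
    · exact le_trans (by linarith) (neg_le_abs _)
    · exact le_trans (by linarith) (le_abs_self _)
  · have h2 := aL_nonneg r n
    have h3 := aL_le_half hr n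
    have h4 := w_le n
    rw [abs_le]
    constructor <;> linarith

theorem ol_fix {r : ℕ → ℕ → Prop} (hr : STO r) {x : ℝ} (h0 : 0 ≤ x) (h1 : x ≤ 1)
    (h : ∀ n, x ≤ aL r n ∨ aL r n + w n ≤ x) : ol hr x = x := by
  unfold ol fl Ph
  have : ∀ n, tm n (emb (ctr hr), x) = 0 := fun n => tm_zero hr n h0 h1 (h n)
  simp [this]

/-- the slot maps, normalised -/
noncomputable def Fs (n : ℕ) (t : ℝ) : ℝ := t + eps n / w n * gb n (w n * (t - 1 / 2))

theorem ol_slot {r : ℕ → ℕ → Prop} (hr : STO r) (n : ℕ) {t : ℝ} (h0 : 0 ≤ t) (h1 : t ≤ 1) :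
    ol hr (aL r n + w n * t) = aL r n + w n * Fs n t := by
  have hwn := w_pos n
  have hwt : w n * t ≤ w n := mul_le_of_le_one_right hwn.le h1
  have hwt0 : 0 ≤ w n * t := mul_nonneg hwn.le h0
  have ha0 := aL_nonneg r n
  have ha1 := aL_le_half hr n
  unfold ol fl Ph Fs
  rw [tsum_eq_single n]
  · rw [tm_ctr]
    rw [show aL r n + w n * t - (aL r n + w n / 2) = w n * (t - 1 / 2) by ring]
    field_simp
    ring
  · intro m hm
    apply tm_zero hr m (by linarith) (by linarith)
    rcases hr.tot m n with h | h | h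
    · exact absurd h hm
    · right
      linarith [aL_add_le hr h]
    · left
      linarith [aL_add_le hr h]

theorem Fs_strictMono (n : ℕ) : StrictMono (Fs n) := by
  intro x y hxy
  unfold Fs
  have h := gb_lip n (w n * (x - 1/2)) (w n * (y - 1 / 2))
  have hw := w_pos n
  rw [show w n * (x - 1/2) - w n * (y - 1/2) = w n * (x - y) by ring, abs_mul, abs_of_pos hw,
    abs_sub_comm x y, abs_of_pos (sub_pos.2 hxy)] at h
  have h2 := (abs_le.1 h).2
  have h3 := eps_lip n
  have h4 : ((1:ℝ)/2)^(n+2) ≤ 1 / 4 := w_le n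
  have h5 : eps n / w n * (gb n (w n * (x - 1/2)) - gb n (w n * (y - 1 / 2)))
      ≤ eps n * Cb n 1 * (y - x) := by
    have : eps n / w n * (Cb n 1 * (w n * (y - x))) = eps n * Cb n 1 * (y - x) := by
      field_simp
    rw [← this]
    exact mul_le_mul_of_nonneg_left h2 (div_pos (eps_pos n) hw).le
  have h6 : eps n * Cb n 1 * (y - x) ≤ 1 / 4 * (y - x) :=
    mul_le_mul_of_nonneg_right (h3.trans h4) (by linarith)
  rw [mul_sub] at h5
  linarith

theorem Fs_continuous (n : ℕ) : Continuous (Fs n) := by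
  unfold Fs
  have := (gb_contDiff n).continuous
  fun_prop

theorem gb_le (n : ℕ) (y : ℝ) : gb n y ≤ Cb n 0 := by
  have := le_Cb n 0 y
  rw [norm_iteratedFDeriv_zero] at this
  exact (le_abs_self _).trans this

theorem Fs_surjective (n : ℕ) : Function.Surjective (Fs n) := by
  have hp : 0 < eps n / w n := div_pos (eps_pos n) (w_pos n)
  refine (Fs_continuous n).surjective ?_ ?_
  · refine tendsto_atTop_mono (f := fun x => x) (fun x => ?_) tendsto_id
    unfold Fs
    have := mul_nonneg hp.le (gb_nonneg n (w n * (x - 1/2)))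
    linarith
  · have hg : Tendsto (fun x : ℝ => x + eps n / w n * Cb n 0) atBot atBot :=
      tendsto_atBot_add_const_right _ _ tendsto_id
    refine tendsto_atBot_mono (fun x => ?_) hg
    unfold Fs
    have := mul_le_mul_of_nonneg_left (gb_le n (w n * (x - 1/2))) hp.le
    linarith

/-- the slot maps as order isomorphisms -/
noncomputable def FsO (n : ℕ) : ℝ ≃o ℝ := (Fs_strictMono n).orderIsoOfSurjective _ (Fs_surjective n)

theorem FsO_apply (n : ℕ) (t : ℝ) : FsO n t = Fs n t := rfl

theorem Fs_zero (n : ℕ) : Fs n 0 = 0 := by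
  unfold Fs
  have hw := w_pos n
  have hw' := w_le n
  rw [gb_zero, mul_zero, add_zero]
  · rw [abs_mul, abs_of_pos hw]; norm_num; linarith
  · rw [abs_mul, abs_of_pos hw]; norm_num; linarith

theorem Fs_one (n : ℕ) : Fs n 1 = 1 := by
  unfold Fs
  have hw := w_pos n
  have hw' := w_le n
  rw [gb_zero, mul_zero, add_zero]
  · rw [abs_mul, abs_of_pos hw]; norm_num; linarith
  · rw [abs_mul, abs_of_pos hw]; norm_num; linarith

theorem lt_Fs (n : ℕ) {t : ℝ} (h : t ∈ Ioo (0:ℝ) 1) : t < Fs n t := by
  unfold Fs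
  have hw := w_pos n
  have : 0 < gb n (w n * (t - 1 / 2)) := by
    apply gb_pos
    rw [abs_mul, abs_of_pos hw]
    have : |t - 1/2| < 1 / 2 := by
      rw [abs_lt]; constructor <;> linarith [h.1, h.2]
    nlinarith
  have := mul_pos (div_pos (eps_pos n) hw) this
  linarith

end Pool.Agent.H410R3.KS
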