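import Mathlib
import Pool.Agent.H410R3.KS.Circ

/-!
# Isomorphic orders give conjugate circle maps
-/

open Set Filter Topology
open scoped ContDiff
open Pool.Agent.Helper114.AB

namespace Pool.Agent.H410R3.KS

/-- monotone clamping functions -/
structure Cl (c : ℝ → ℝ) : Prop where
  cont : Continuous c
  mono : Monotone c
  zero : ∀ s ≤ 0, c s = 0
  one : ∀ s, 1 ≤ s → c s = 1
  strict : StrictMonoOn c (Icc 0 1)

theorem Cl.nonneg {c : ℝ → ℝ} (h : Cl c) (s : ℝ) : 0 ≤ c s := by
  rw [← h.zero (min s 0) (min_le_right _ _)]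
  exact h.mono (min_le_left _ _)

theorem Cl.le_one {c : ℝ → ℝ} (h : Cl c) (s : ℝ) : c s ≤ 1 := by
  rw [← h.one (max s 1) (le_max_right _ _)]
  exact h.mono (le_max_left _ _)

theorem Cl.lt {c : ℝ → ℝ} (h : Cl c) {s s' : ℝ} (h0 : s < s') (h1 : s < 1) (h2 : 0 < s') :
    c s < c s' := by
  have e1 : c s = c (max s 0) := by
    rcases le_total s 0 with h3 | h3
    · rw [max_eq_right h3, h.zero s h3, h.zero 0 le_rfl]
    · rw [max_eq_left h3]
  have e2 : c s' = c (min s' 1) := by
    rcases le_total s' 1 with h3 | h3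
    · rw [min_eq_left h3]
    · rw [min_eq_right h3, h.one s' h3, h.one 1 le_rfl]
  rw [e1, e2]
  apply h.strict
  · exact ⟨le_max_right _ _, (max_lt h1 one_pos).le⟩
  · exact ⟨(lt_min h2 one_pos).le, min_le_right _ _⟩
  · exact max_lt (lt_min h0 h1) (lt_min h2 one_pos)

/-- the map of the line -/
noncomputable def KK (r : ℕ → ℕ → Prop) (π : ℕ ≃ ℕ) (c : ℕ → ℝ → ℝ) (x : ℝ) : ℝ :=
  (∑' n, w (π n) * c n ((x - aL r n) / w n)) + max (x - 1 / 2) 0

section

variable {r r' : ℕ → ℕ → Prop} (hr : STO r) (hr' : STO r') (π : ℕ ≃ ℕ) {c : ℕ → ℝ → ℝ}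
  (hc : ∀ n, Cl (c n))

include hc in
theorem KK_term_le (x : ℝ) (n : ℕ) : w (π n) * c n ((x - aL r n) / w n) ≤ w (π n) :=
  mul_le_of_le_one_right (ka_w_pos _).le ((hc n).le_one _)

include hc in
theorem KK_term_nonneg (x : ℝ) (n : ℕ) : 0 ≤ w (π n) * c n ((x - aL r n) / w n) :=
  mul_nonneg (ka_w_pos _).le ((hc n).nonneg _)

include hc in
theorem KK_summable (x : ℝ) : Summable (fun n => w (π n) * c n ((x - aL r n) / w n)) :=
  Summable.of_nonneg_of_le (KK_term_nonneg π hc x) (KK_term_le π hc x) (ka_w_summable π)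

include hc in
theorem KK_continuous : Continuous (KK r π c) := by
  unfold KK
  refine Continuous.add ?_ (by fun_prop)
  refine continuous_tsum (u := fun n => w (π n)) (fun n => ?_) (ka_w_summable π) (fun n x => ?_)
  · exact continuous_const.mul ((hc n).cont.comp (by fun_prop))
  · rw [Real.norm_eq_abs, abs_of_nonneg (KK_term_nonneg π hc x n)]
    exact KK_term_le π hc x n

include hc in
theorem KK_zero : KK r π c 0 = 0 := by
  unfold KK
  have h : ∀ n, w (π n) * c n ((0 - aL r n) / w n) = 0 := by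
    intro n
    rw [(hc n).zero, mul_zero]
    exact div_nonpos_of_nonpos_of_nonneg (by linarith [aL_nonneg r n]) (ka_w_pos n).le
  simp only [h, tsum_zero]
  norm_num

include hr hc in
theorem KK_one : KK r π c 1 = 1 := by
  unfold KK
  have h : ∀ n, w (π n) * c n ((1 - aL r n) / w n) = w (π n) := by
    intro n
    rw [(hc n).one, mul_one]
    rw [le_div_iff₀ (ka_w_pos n)]
    linarith [aL_le_half hr n]
  simp only [h]
  rw [π.tsum_eq w, ka_w_hasSum.tsum_eq]
  norm_num

include hr hc in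
theorem KK_strict : StrictMonoOn (KK r π c) (Icc 0 1) := by
  intro x hx y hy hxy
  unfold KK
  have hle : ∀ n, w (π n) * c n ((x - aL r n) / w n) ≤ w (π n) * c n ((y - aL r n) / w n) := by
    intro n
    refine mul_le_mul_of_nonneg_left ((hc n).mono ?_) (ka_w_pos _).le
    exact div_le_div_of_nonneg_right (by linarith) (ka_w_pos n).le
  rcases le_or_gt y (1 / 2) with h | h
  · obtain ⟨n, h1, h2⟩ := ka_dense hr hx.1 hxy h
    have hlt : w (π n) * c n ((x - aL r n) / w n) < w (π n) * c n ((y - aL r n) / w n) := by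
      refine mul_lt_mul_of_pos_left ((hc n).lt ?_ ?_ ?_) (ka_w_pos _)
      · exact div_lt_div_of_pos_right (by linarith) (ka_w_pos n)
      · rw [div_lt_one (ka_w_pos n)]
        linarith
      · exact div_pos (by linarith) (ka_w_pos n)
    exact add_lt_add_of_lt_of_le
      (Summable.tsum_lt_tsum hle hlt (KK_summable π hc x) (KK_summable π hc y))
      (max_le_max (by linarith) le_rfl)
  · refine add_lt_add_of_le_of_lt
      ((KK_summable π hc x).tsum_le_tsum hle (KK_summable π hc y)) ?_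
    rw [max_eq_left (by linarith : (0:ℝ) ≤ y - 1 / 2)]
    exact max_lt (by linarith) (by linarith)

include hr hc in
theorem KK_val (hπ : ∀ m n, r m n ↔ r' (π m) (π n)) (n : ℕ) (t : ℝ) (h0 : 0 ≤ t) (h1 : t ≤ 1) :
    KK r π c (aL r n + w n * t) = aL r' (π n) + w (π n) * c n t := by
  classical
  have hwn := ka_w_pos n
  have hwt : w n * t ≤ w n := mul_le_of_le_one_right hwn.le h1
  have hwt0 : 0 ≤ w n * t := mul_nonneg hwn.le h0
  have hterm : ∀ m, w (π m) * c m ((aL r n + w n * t - aL r m) / w m)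
      = (if r' (π m) (π n) then w (π m) else 0) + (if m = n then w (π n) * c n t else 0) := by
    intro m
    rcases hr.tot m n with h | h | h
    · subst h
      have h2 : ¬ r' (π m) (π m) := fun h' => hr.irr m ((hπ m m).mpr h')
      rw [if_neg h2, if_pos rfl, zero_add]
      congr 1
      have h3 : (aL r m + w m * t - aL r m) / w m = t := by
        field_simp
        ring
      rw [h3]
    · have hne : m ≠ n := fun h' => by subst h'; exact hr.irr m h
      rw [if_pos ((hπ m n).mp h), if_neg hne, add_zero, (hc m).one, mul_one]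
      rw [le_div_iff₀ (ka_w_pos m)]
      linarith [aL_add_le hr h]
    · have hne : m ≠ n := fun h' => by subst h'; exact hr.irr m h
      have h2 : ¬ r' (π m) (π n) := fun h' =>
        hr.irr m (hr.tr _ _ _ ((hπ m n).mpr h') h)
      rw [if_neg h2, if_neg hne, add_zero, (hc m).zero, mul_zero]
      refine div_nonpos_of_nonpos_of_nonneg ?_ (ka_w_pos m).le
      linarith [aL_add_le hr h]
  unfold KK
  simp only [hterm]
  have hs1 : Summable (fun m => if r' (π m) (π n) then w (π m) else 0) := by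
    refine Summable.of_nonneg_of_le (fun m => ?_) (fun m => ?_) (ka_w_summable π)
    · split_ifs
      · exact (ka_w_pos _).le
      · exact le_rfl
    · split_ifs
      · exact le_rfl
      · exact (ka_w_pos _).le
  have hs2 : Summable (fun m => if m = n then w (π n) * c n t else 0) :=
    (hasSum_ite_eq n (w (π n) * c n t)).summable
  rw [hs1.tsum_add hs2, tsum_ite_eq, max_eq_right (by linarith [aL_le_half hr n]), add_zero]
  congr 1
  unfold aL
  exact π.tsum_eq (fun m => if r' m (π n) then w m else 0)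

theorem rep01 (z : T1) : ∃ x ∈ Ico (0 : ℝ) 1, (x : T1) = z := by
  refine ⟨(AddCircle.equivIco 1 0 z : ℝ), ?_, AddCircle.coe_equivIco⟩
  have := (AddCircle.equivIco 1 0 z).2
  simpa using this

include hr hc in
theorem kappa' (hπ : ∀ m n, r m n ↔ r' (π m) (π n)) :
    ∃ κ : T1 ≃ₜ T1, ∀ (n : ℕ) (t : ℝ), 0 ≤ t → t ≤ 1 →
      κ ((aL r n + w n * t : ℝ) : T1) = ((aL r' (π n) + w (π n) * c n t : ℝ) : T1) := by
  classical
  have hcont : Continuous (fun x : ℝ => ((KK r π c x : ℝ) : T1)) :=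
    (AddCircle.continuous_mk' 1).comp (KK_continuous π hc)
  set κ : T1 → T1 := AddCircle.liftIco 1 0 (fun x : ℝ => ((KK r π c x : ℝ) : T1)) with hκ
  have hκc : Continuous κ := by
    refine AddCircle.liftIco_continuous ?_ hcont.continuousOn
    rw [zero_add, KK_zero π hc, KK_one hr π hc]
    simp [AddCircle.coe_period]
  have hval : ∀ x ∈ Ico (0 : ℝ) 1, κ (x : T1) = ((KK r π c x : ℝ) : T1) := by
    intro x hx
    exact AddCircle.liftIco_coe_apply (by simpa using hx)
  have hmem : ∀ x ∈ Ico (0 : ℝ) 1, KK r π c x ∈ Ico (0 : ℝ) 1 := by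
    intro x hx
    have hm := (KK_strict hr π hc).monotoneOn
    constructor
    · have := hm (left_mem_Icc.mpr zero_le_one) (Ico_subset_Icc_self hx) hx.1
      rwa [KK_zero π hc] at this
    · have := KK_strict hr π hc (Ico_subset_Icc_self hx) (right_mem_Icc.mpr zero_le_one) hx.2
      rwa [KK_one hr π hc] at this
  have hinj : Function.Injective κ := by
    intro z z' hz
    obtain ⟨x, hx, rfl⟩ := rep01 z
    obtain ⟨y, hy, rfl⟩ := rep01 z'
    rw [hval x hx, hval y hy] at hz
    have h1 := (AddCircle.coe_eq_coe_iff_of_mem_Ico (p := (1:ℝ)) (a := 0)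
      (by simpa using hmem x hx) (by simpa using hmem y hy)).mp hz
    rw [(KK_strict hr π hc).injOn (Ico_subset_Icc_self hx) (Ico_subset_Icc_self hy) h1]
  have hsurj : Function.Surjective κ := by
    intro z
    obtain ⟨y, hy, rfl⟩ := rep01 z
    have h1 : y ∈ Icc (KK r π c 0) (KK r π c 1) := by
      rw [KK_zero π hc, KK_one hr π hc]
      exact Ico_subset_Icc_self hy
    obtain ⟨x, hx, hxy⟩ := intermediate_value_Icc zero_le_one
      (KK_continuous π hc).continuousOn h1
    have hx1 : x ≠ 1 := by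
      intro h
      rw [h, KK_one hr π hc] at hxy
      exact hy.2.ne hxy.symm
    have hx' : x ∈ Ico (0 : ℝ) 1 := ⟨hx.1, lt_of_le_of_ne hx.2 hx1⟩
    exact ⟨(x : T1), by rw [hval x hx', hxy]⟩
  have hκc' : Continuous (Equiv.ofBijective κ ⟨hinj, hsurj⟩) := hκc
  refine ⟨hκc'.homeoOfEquivCompactToT2, fun n t h0 h1 => ?_⟩
  show κ _ = _
  have hwn := ka_w_pos n
  have hwt : w n * t ≤ w n := mul_le_of_le_one_right hwn.le h1
  have hwt0 : 0 ≤ w n * t := mul_nonneg hwn.le h0
  have ha0 := aL_nonneg r n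
  have ha1 := aL_le_half hr n
  rw [hval _ ⟨by linarith, by linarith⟩, KK_val hr π hc hπ n t h0 h1]

/-- a point of the circle is fixed or lies in an open slot -/
theorem slot_or_fix (z : T1) : oc hr z = z ∨
    ∃ n, ∃ t ∈ Ioo (0:ℝ) 1, z = ((aL r n + w n * t : ℝ) : T1) := by
  obtain ⟨x, hx, rfl⟩ := rep01 z
  by_cases h : ∀ n, x ≤ aL r n ∨ aL r n + w n ≤ x
  · left
    rw [oc_coe, ol_fix hr hx.1 hx.2.le h]
  · right
    push Not at h
    obtain ⟨n, h1, h2⟩ := h
    have hw := w_pos n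
    refine ⟨n, (x - aL r n) / w n, ⟨div_pos (by linarith) hw, ?_⟩, ?_⟩
    · rw [div_lt_one hw]; linarith
    · congr 1
      field_simp
      ring

theorem oc_slot (n : ℕ) {t : ℝ} (h0 : 0 ≤ t) (h1 : t ≤ 1) :
    oc hr ((aL r n + w n * t : ℝ) : T1) = ((aL r n + w n * Fs n t : ℝ) : T1) := by
  rw [oc_coe, ol_slot hr n h0 h1]

theorem Fs_mem (n : ℕ) {t : ℝ} (h : t ∈ Icc (0:ℝ) 1) : Fs n t ∈ Icc (0:ℝ) 1 := by
  constructor
  · have := (Fs_strictMono n).monotone h.1
    rwa [Fs_zero] at this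
  · have := (Fs_strictMono n).monotone h.2
    rwa [Fs_one] at this

/-- Isomorphic orders give conjugate circle maps. -/
theorem fwd (hπ : ∀ m n, r m n ↔ r' (π m) (π n)) :
    ∃ κ : T1 ≃ₜ T1, ∀ z, κ (oc hr z) = oc hr' (κ z) := by
  have hex := fun n => conj_exists (FsO n) (FsO (π n)) (Fs_zero n) (Fs_one n)
    (fun t ht => lt_Fs n ht) (Fs_zero (π n)) (Fs_one (π n)) (fun t ht => lt_Fs (π n) ht)
  choose c c1 c2 c3 c4 c5 c6 using hex
  have hc : ∀ n, Cl (c n) := fun n => ⟨c1 n, c2 n, c3 n, c4 n, c5 n⟩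
  obtain ⟨κ, hκ⟩ := kappa' hr (r' := r') π hc hπ
  have hslot : ∀ n, ∀ t ∈ Icc (0:ℝ) 1, κ (oc hr ((aL r n + w n * t : ℝ) : T1)) =
      oc hr' (κ ((aL r n + w n * t : ℝ) : T1)) := by
    intro n t ht
    have h1 := Fs_mem n ht
    rw [oc_slot hr n ht.1 ht.2, hκ n _ h1.1 h1.2, hκ n t ht.1 ht.2,
      oc_slot hr' (π n) ((hc n).nonneg t) ((hc n).le_one t)]
    have h2 := c6 n t ht
    rw [FsO_apply, FsO_apply] at h2
    rw [h2]
  refine ⟨κ, fun z => ?_⟩
  rcases slot_or_fix hr z with h | ⟨n, t, ht, rfl⟩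
  · rcases slot_or_fix hr' (κ z) with h' | ⟨m, t, ht, h'⟩
    · rw [h, h']
    · -- `z` lies in a slot
      obtain ⟨s, hs, hst⟩ : ∃ s ∈ Icc (0:ℝ) 1, c (π.symm m) s = t := by
        have h2 : t ∈ Icc (c (π.symm m) 0) (c (π.symm m) 1) := by
          rw [c3 _ 0 le_rfl, c4 _ 1 le_rfl]
          exact Ioo_subset_Icc_self ht
        obtain ⟨s, hs, hst⟩ := intermediate_value_Icc zero_le_one (c1 _).continuousOn h2
        exact ⟨s, hs, hst⟩
      have h3 := hκ (π.symm m) s hs.1 hs.2
      rw [hst, π.apply_symm_apply, ← h'] at h3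
      have h4 := κ.injective h3
      rw [← h4]
      exact hslot _ s hs
  · exact hslot n t (Ioo_subset_Icc_self ht)

end

end Pool.Agent.H410R3.KS
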