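import Mathlib
import Pool.Agent.H410R3.KS.Fwd

/-!
# Conjugate torus maps have comparable orders
-/

open Set Filter Topology
open scoped ContDiff
open Pool.Agent.Helper114.AB

namespace Pool.Agent.H410R3.KS

theorem coe_inj01 {x y : ℝ} (hx : x ∈ Ico (0:ℝ) 1) (hy : y ∈ Ico (0:ℝ) 1) (h : (x : T1) = (y : T1)) :
    x = y :=
  (AddCircle.coe_eq_coe_iff_of_mem_Ico (p := (1:ℝ)) (a := 0)
      (by simpa using hx) (by simpa using hy)).mp h

/-- the torus maps -/
noncomputable def tor (α : ℝ) {r : ℕ → ℕ → Prop} (hr : STO r) : T2 ≃ₜ T2 :=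
  (Homeomorph.addRight (α : T1)).prodCongr (oc hr)

theorem tor_apply (α : ℝ) {r : ℕ → ℕ → Prop} (hr : STO r) (p : T2) :
    tor α hr p = (p.1 + (α : T1), oc hr p.2) := rfl

theorem homeo_zpow_succ {X : Type*} [TopologicalSpace X] (f : X ≃ₜ X) (m : ℤ) (x : X) :
    (f ^ (m + 1)) x = f ((f ^ m) x) := by
  rw [add_comm, zpow_add, zpow_one]; rfl

theorem homeo_zpow_pred {X : Type*} [TopologicalSpace X] (f : X ≃ₜ X) (m : ℤ) (x : X) :
    (f ^ (m - 1)) x = f.symm ((f ^ m) x) := by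
  rw [sub_eq_add_neg, add_comm, zpow_add, zpow_neg, zpow_one]; rfl

theorem tor_zpow (α : ℝ) {r : ℕ → ℕ → Prop} (hr : STO r) (m : ℤ) (p : T2) :
    ((tor α hr) ^ m) p = (p.1 + m • (α : T1), ((oc hr) ^ m) p.2) := by
  induction m with
  | zero => simp
  | succ n ih =>
    rw [homeo_zpow_succ, ih, tor_apply, homeo_zpow_succ]
    refine Prod.ext ?_ rfl
    simp only
    rw [add_smul, one_smul, add_assoc]
  | pred n ih =>
    rw [homeo_zpow_pred, ih, homeo_zpow_pred]
    refine Prod.ext ?_ rfl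
    show p.1 + (-(n:ℤ)) • (α : T1) - (α : T1) = p.1 + (-(n:ℤ) - 1) • (α : T1)
    rw [sub_smul, one_smul, add_sub_assoc]

theorem homeo_zpow_fix {X : Type*} [TopologicalSpace X] (f : X ≃ₜ X) {x : X} (h : f x = x) (m : ℤ) :
    (f ^ m) x = x := by
  have h' : f.symm x = x := by rw [Homeomorph.symm_apply_eq, h]
  induction m with
  | zero => rfl
  | succ n ih => rw [homeo_zpow_succ, ih, h]
  | pred n ih => rw [homeo_zpow_pred, ih, h']

theorem conj_zpow {X : Type*} [TopologicalSpace X] (f f' H : X ≃ₜ X) (h : ∀ x, H (f x) = f' (H x))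
    (m : ℤ) (x : X) : H ((f ^ m) x) = (f' ^ m) (H x) := by
  have h' : ∀ x, H (f.symm x) = f'.symm (H x) := by
    intro x
    rw [Homeomorph.eq_symm_apply, ← h, f.apply_symm_apply]
  induction m with
  | zero => rfl
  | succ n ih => rw [homeo_zpow_succ, homeo_zpow_succ, h, ih]
  | pred n ih => rw [homeo_zpow_pred, homeo_zpow_pred, h', ih]

section

variable {r r' : ℕ → ℕ → Prop} (hr : STO r) (hr' : STO r')

theorem slot_pt_mem (n : ℕ) {t : ℝ} (h : t ∈ Icc (0:ℝ) 1) :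
    aL r n + w n * t ∈ Icc (0:ℝ) (aL r n + w n) := by
  have hw := w_pos n
  have h0 := aL_nonneg r n
  constructor
  · have := mul_nonneg hw.le h.1; linarith
  · have := mul_le_of_le_one_right hw.le h.2; linarith

include hr in
theorem slot_pt_Ico (n : ℕ) {t : ℝ} (h : t ∈ Icc (0:ℝ) 1) :
    aL r n + w n * t ∈ Ico (0:ℝ) 1 := by
  have h1 := slot_pt_mem (r := r) n h
  have h2 := aL_le_half hr n
  exact ⟨h1.1, by linarith [h1.2]⟩

theorem oc_zpow_slot (n : ℕ) (m : ℤ) {t : ℝ} (h : t ∈ Icc (0:ℝ) 1) :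
    ((oc hr) ^ m) ((aL r n + w n * t : ℝ) : T1) =
      ((aL r n + w n * ((FsO n) ^ m) t : ℝ) : T1) ∧ ((FsO n) ^ m) t ∈ Icc (0:ℝ) 1 := by
  have hmem : ∀ m : ℤ, ((FsO n) ^ m) t ∈ Icc (0:ℝ) 1 := by
    intro m
    constructor
    · have := ((FsO n) ^ m).monotone h.1
      rwa [zp_fix _ 0 (Fs_zero n)] at this
    · have := ((FsO n) ^ m).monotone h.2
      rwa [zp_fix _ 1 (Fs_one n)] at this
  refine ⟨?_, hmem m⟩
  induction m with
  | zero => simp
  | succ k ih =>
    rw [homeo_zpow_succ, ih, oc_slot hr n (hmem k).1 (hmem k).2, zp_succ]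
    rfl
  | pred k ih =>
    rw [homeo_zpow_pred, ih, Homeomorph.symm_apply_eq, oc_slot hr n (hmem _).1 (hmem _).2]
    congr 3
    have := zp_succ (FsO n) t (-(k:ℤ) - 1)
    rw [sub_add_cancel] at this
    exact this

/-- points of the open slots move -/
theorem slot_not_fix (n : ℕ) {t : ℝ} (h : t ∈ Ioo (0:ℝ) 1) :
    oc hr ((aL r n + w n * t : ℝ) : T1) ≠ ((aL r n + w n * t : ℝ) : T1) := by
  have h' := Ioo_subset_Icc_self h
  rw [oc_slot hr n h'.1 h'.2]
  intro h2
  have h3 := coe_inj01 (slot_pt_Ico hr n (Fs_mem n h')) (slot_pt_Ico hr n h') h2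
  have h4 := lt_Fs n h
  have hw := w_pos n
  have : w n * Fs n t = w n * t := by linarith
  have := mul_left_cancel₀ hw.ne' this
  linarith

/-- two sided recurrence -/
def Rc (f : T2 ≃ₜ T2) (p : T2) : Prop := p ∈ closure {q | ∃ m : ℤ, m ≠ 0 ∧ q = (f ^ m) p}

theorem Rc_conj (f f' H : T2 ≃ₜ T2) (h : ∀ x, H (f x) = f' (H x)) (p : T2) :
    Rc f p ↔ Rc f' (H p) := by
  unfold Rc
  have h1 : {q | ∃ m : ℤ, m ≠ 0 ∧ q = (f' ^ m) (H p)} = H '' {q | ∃ m : ℤ, m ≠ 0 ∧ q = (f ^ m) p} := by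
    ext q
    constructor
    · rintro ⟨m, hm, rfl⟩
      exact ⟨_, ⟨m, hm, rfl⟩, conj_zpow f f' H h m p⟩
    · rintro ⟨_, ⟨m, hm, rfl⟩, rfl⟩
      exact ⟨m, hm, conj_zpow f f' H h m p⟩
  rw [h1, ← H.image_closure]
  exact (H.injective.mem_set_image).symm

theorem dense_mul {α : ℝ} (hα : Irrational α) : Dense (range fun m : ℤ => m • (α : T1)) := by
  have := (AddCircle.denseRange_zsmul_coe_iff (a := α) (p := 1)).2 (by simpa using hα)
  exact this

theorem Rc_of_fix {α : ℝ} (hα : Irrational α) {p : T2} (h : oc hr p.2 = p.2) :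
    Rc (tor α hr) p := by
  unfold Rc
  have : Nontrivial T1 := ⟨0, ((1/2 : ℝ) : T1), fun h => by
    have := coe_inj01 (x := 0) (y := 1 / 2) (by norm_num) (by norm_num) (by simpa using h)
    norm_num at this⟩
  have h1 : Dense ((range fun m : ℤ => m • (α : T1)) \ {0}) :=
    (dense_mul hα).sdiff_singleton 0
  have h2 : (0 : T1) ∈ closure ((range fun m : ℤ => m • (α : T1)) \ {0}) := h1 0
  have hc : Continuous (fun t : T1 => ((p.1 + t, p.2) : T2)) := by fun_prop
  have h3 := hc.range_subset_closure_image_dense h1 (mem_range_self (0:T1))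
  simp only [add_zero] at h3
  refine closure_mono ?_ h3
  rintro _ ⟨_, ⟨⟨m, rfl⟩, hm⟩, rfl⟩
  refine ⟨m, ?_, ?_⟩
  · rintro rfl
    exact hm (by simp)
  · rw [tor_zpow, homeo_zpow_fix _ h]

theorem fix_of_Rc {α : ℝ} {p : T2} (h : Rc (tor α hr) p) : oc hr p.2 = p.2 := by
  rcases slot_or_fix hr p.2 with h' | ⟨n, t, ht, h'⟩
  · exact h'
  · exfalso
    have ht' := Ioo_subset_Icc_self ht
    have hw := w_pos n
    set t1 := ((FsO n) ^ (-1 : ℤ)) t with ht1
    set t2 := ((FsO n) ^ (1 : ℤ)) t with ht2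
    have hm := zp_mono (e := FsO n) (Fs_zero n) (Fs_one n) (fun t ht => lt_Fs n ht) ht
    have m1 := (zp_mem (e := FsO n) (Fs_zero n) (Fs_one n) ht (-1))
    have m2 := (zp_mem (e := FsO n) (Fs_zero n) (Fs_one n) ht 1)
    have e0 : ((FsO n) ^ (0:ℤ)) t = t := by simp
    have l1 : t1 < t := by
      have := hm (show (-1 : ℤ) < 0 by norm_num)
      simp only [e0] at this
      exact this
    have l2 : t < t2 := by
      have := hm (show (0 : ℤ) < 1 by norm_num)
      simp only [e0] at this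
      exact this
    set U : Set T1 := (fun x : ℝ => (x : T1)) '' Ioo (aL r n + w n * t1) (aL r n + w n * t2) with hU
    have hUo : IsOpen U := by
      have : IsOpenMap (fun x : ℝ => (x : T1)) := QuotientAddGroup.isOpenMap_coe
      exact this _ isOpen_Ioo
    have hpU : p ∈ Prod.snd ⁻¹' U := by
      refine ⟨aL r n + w n * t, ⟨?_, ?_⟩, h'.symm⟩
      · have := mul_lt_mul_of_pos_left l1 hw; linarith
      · have := mul_lt_mul_of_pos_left l2 hw; linarith
    obtain ⟨q, ⟨x, hx, hxq⟩, m, hm0, rfl⟩ :=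
      mem_closure_iff.1 h _ (hUo.preimage continuous_snd) hpU
    rw [tor_zpow] at hxq
    simp only at hxq
    rw [h', (oc_zpow_slot hr n m ht').1] at hxq
    have m3 := slot_pt_Ico hr n (oc_zpow_slot hr n m ht').2
    have m1' := slot_pt_Ico hr n (Ioo_subset_Icc_self m1)
    have m2' := slot_pt_Ico hr n (Ioo_subset_Icc_self m2)
    have hx' : x ∈ Ico (0:ℝ) 1 := ⟨m1'.1.trans hx.1.le, hx.2.trans m2'.2⟩
    have e := coe_inj01 hx' m3 hxq
    rw [e] at hx
    have k1 : t1 < ((FsO n) ^ m) t := by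
      have := hx.1
      by_contra hcon
      push Not at hcon
      have := mul_le_mul_of_nonneg_left hcon hw.le
      linarith
    have k2 : ((FsO n) ^ m) t < t2 := by
      have := hx.2
      by_contra hcon
      push Not at hcon
      have := mul_le_mul_of_nonneg_left hcon hw.le
      linarith
    have k3 : -1 < m := hm.lt_iff_lt.1 k1
    have k4 : m < 1 := hm.lt_iff_lt.1 k2
    omega

theorem Rc_iff {α : ℝ} (hα : Irrational α) (p : T2) : Rc (tor α hr) p ↔ oc hr p.2 = p.2 :=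
  ⟨fix_of_Rc hr, Rc_of_fix hr hα⟩

variable {α : ℝ} (hα : Irrational α) (H : T2 ≃ₜ T2) (hH : ∀ p, H (tor α hr p) = tor α hr' (H p))

include hα hH in
theorem fix_iff (p : T2) : oc hr p.2 = p.2 ↔ oc hr' (H p).2 = (H p).2 := by
  rw [← Rc_iff hr hα, ← Rc_iff hr' hα]
  exact Rc_conj _ _ H hH p

include hα hH in
theorem const_fix {z : T1} (hz : oc hr z = z) (θ : T1) : (H (θ, z)).2 = (H (0, z)).2 := by
  have hcl : IsClosed {θ : T1 | (H (θ, z)).2 = (H (0, z)).2} := by
    apply isClosed_eq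
    · exact continuous_snd.comp (H.continuous.comp (by fun_prop))
    · exact continuous_const
  have hsub : (range fun m : ℤ => m • (α : T1)) ⊆ {θ : T1 | (H (θ, z)).2 = (H (0, z)).2} := by
    rintro _ ⟨m, rfl⟩
    have h1 := conj_zpow _ _ H hH m (0, z)
    rw [tor_zpow, tor_zpow] at h1
    simp only [zero_add] at h1
    rw [homeo_zpow_fix _ hz] at h1
    show (H (m • (α : T1), z)).2 = (H (0, z)).2
    rw [h1]
    simp only
    apply homeo_zpow_fix
    exact (fix_iff hr hr' hα H hH (0, z)).1 hz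
  have := hcl.closure_subset_iff.2 hsub
  exact this (dense_mul hα θ)

include hα hH in
theorem inj_fix {z z' : T1} (hz : oc hr z = z)
    (h : (H (0, z)).2 = (H (0, z')).2) : z = z' := by
  have hH' : ∀ p, H.symm (tor α hr' p) = tor α hr (H.symm p) := by
    intro p
    rw [Homeomorph.symm_apply_eq, hH, H.apply_symm_apply]
  have hy : oc hr' (H (0, z)).2 = (H (0, z)).2 := (fix_iff hr hr' hα H hH (0, z)).1 hz
  have h1 := const_fix hr' hr hα H.symm hH' hy (H (0, z)).1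
  have h2 := const_fix hr' hr hα H.symm hH' hy (H (0, z')).1
  have e1 : ((H (0, z)).1, (H (0, z)).2) = H (0, z) := rfl
  have e2 : ((H (0, z')).1, (H (0, z)).2) = H (0, z') := by rw [h]
  rw [e1, H.symm_apply_apply] at h1
  rw [e2, H.symm_apply_apply] at h2
  simp only at h1 h2
  rw [h1, h2]

theorem zp_tendsto_one {e : ℝ ≃o ℝ} (h0 : e 0 = 0) (h1 : e 1 = 1)
    (hlt : ∀ t ∈ Ioo (0:ℝ) 1, t < e t) {t : ℝ} (ht : t ∈ Ioo (0:ℝ) 1) :
    Tendsto (fun k : ℕ => (e ^ (k:ℤ)) t) atTop (𝓝 1) := by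
  rw [tendsto_order]
  constructor
  · intro a ha
    rcases lt_or_ge 0 a with h | h
    · obtain ⟨n, hn⟩ := zp_unbdd h0 h1 hlt ⟨h, ha⟩ ht
      filter_upwards [eventually_ge_atTop n] with k hk
      exact hn.trans_le ((zp_mono h0 h1 hlt ht).monotone (by exact_mod_cast hk))
    · exact Eventually.of_forall fun k => h.trans_lt (zp_mem h0 h1 ht k).1
  · intro a ha
    exact Eventually.of_forall fun k => (zp_mem h0 h1 ht k).2.trans ha

theorem zp_tendsto_zero {e : ℝ ≃o ℝ} (h0 : e 0 = 0) (h1 : e 1 = 1)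
    (hlt : ∀ t ∈ Ioo (0:ℝ) 1, t < e t) {t : ℝ} (ht : t ∈ Ioo (0:ℝ) 1) :
    Tendsto (fun k : ℕ => (e ^ (-(k:ℤ))) t) atTop (𝓝 0) := by
  rw [tendsto_order]
  constructor
  · intro a ha
    exact Eventually.of_forall fun k => ha.trans (zp_mem h0 h1 ht _).1
  · intro a ha
    rcases lt_or_ge a 1 with h | h
    · obtain ⟨n, hn⟩ := zp_unbdd h0 h1 hlt ht ⟨ha, h⟩
      filter_upwards [eventually_ge_atTop n] with k hk
      have h2 : (e ^ (-(n:ℤ))) t < a := by
        have := (e ^ (-(n:ℤ))).strictMono hn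
        rwa [zp_neg'] at this
      exact ((zp_mono h0 h1 hlt ht).monotone (by omega)).trans_lt h2
    · exact Eventually.of_forall fun k => (zp_mem h0 h1 ht _).2.trans_le h

include hα hH in
/-- the images of the end points of a slot -/
theorem endpt {n k : ℕ} {t s e : ℝ} (ht : t ∈ Icc (0:ℝ) 1) (hs : s ∈ Icc (0:ℝ) 1)
    (hHt : (H (0, ((aL r n + w n * t : ℝ) : T1))).2 = ((aL r' k + w k * s : ℝ) : T1))
    (m : ℕ → ℤ) (he1 : Tendsto (fun j => ((FsO n) ^ (m j)) t) atTop (𝓝 e))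
    (he2 : Tendsto (fun j => ((FsO k) ^ (m j)) s) atTop (𝓝 e))
    (hfix : oc hr ((aL r n + w n * e : ℝ) : T1) = ((aL r n + w n * e : ℝ) : T1)) :
    (H (0, ((aL r n + w n * e : ℝ) : T1))).2 = ((aL r' k + w k * e : ℝ) : T1) := by
  obtain ⟨θ, φ, hφ, hlim⟩ := CompactSpace.tendsto_subseq (fun j => (m j) • (α : T1))
  rw [← const_fix hr hr' hα H hH hfix θ]
  have hcoe : Continuous (fun x : ℝ => (x : T1)) := AddCircle.continuous_mk' 1
  have h1 : Tendsto (fun j => ((tor α hr) ^ (m (φ j))) (0, ((aL r n + w n * t : ℝ) : T1))) atTop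
      (𝓝 (θ, ((aL r n + w n * e : ℝ) : T1))) := by
    simp only [tor_zpow, (oc_zpow_slot hr n _ ht).1, zero_add]
    refine Tendsto.prodMk_nhds hlim ?_
    refine (hcoe.tendsto _).comp (tendsto_const_nhds.add (Tendsto.const_mul _ ?_))
    exact he1.comp hφ.tendsto_atTop
  have h2 := (continuous_snd.tendsto _).comp ((H.continuous.tendsto _).comp h1)
  have h3 : Tendsto (fun j => ((aL r' k + w k * ((FsO k) ^ (m (φ j))) s : ℝ) : T1)) atTop
      (𝓝 ((aL r' k + w k * e : ℝ) : T1)) := by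
    refine (hcoe.tendsto _).comp (tendsto_const_nhds.add (Tendsto.const_mul _ ?_))
    exact he2.comp hφ.tendsto_atTop
  refine tendsto_nhds_unique h2 (h3.congr fun j => ?_)
  simp only [Function.comp]
  rw [conj_zpow _ _ H hH, tor_zpow, hHt]
  exact (oc_zpow_slot hr' k _ hs).1.symm

theorem fix_end0 (n : ℕ) :
    oc hr ((aL r n + w n * 0 : ℝ) : T1) = ((aL r n + w n * 0 : ℝ) : T1) := by
  rw [oc_slot hr n le_rfl zero_le_one, Fs_zero]

theorem fix_end1 (n : ℕ) :
    oc hr ((aL r n + w n * 1 : ℝ) : T1) = ((aL r n + w n * 1 : ℝ) : T1) := by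
  rw [oc_slot hr n zero_le_one le_rfl, Fs_one]

end

end Pool.Agent.H410R3.KS
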