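import Mathlib
import Pool.Agent.H410R3.KS.Bwd

/-!
# Conjugate torus maps have comparable orders: the order argument
-/

open Set Filter Topology
open scoped ContDiff
open Pool.Agent.Helper114.AB

namespace Pool.Agent.H410R3.KS

theorem coe_eq_iff (x y : ℝ) : (x : T1) = (y : T1) ↔ ∃ m : ℤ, x = y + m := by
  rw [← sub_eq_zero, ← AddCircle.coe_sub, AddCircle.coe_eq_zero_iff]
  constructor
  · rintro ⟨n, hn⟩
    refine ⟨n, ?_⟩
    have : (n : ℝ) = x - y := by simpa using hn
    linarith
  · rintro ⟨n, hn⟩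
    refine ⟨n, ?_⟩
    have : (n : ℝ) = x - y := by linarith
    simpa using this

/-- monotonicity on a set from the intermediate value theorem -/
theorem ivt_mono {G : ℝ → ℝ} (hG : Continuous G) {c d : ℝ} {S : Set ℝ} (hS : S ⊆ Icc c d)
    (hd : d ∈ S) (hinj : ∀ x ∈ Icc c d, ∀ y ∈ S, G x = G y → x = y)
    (hcd : G c < G d) : ∀ x ∈ S, ∀ y ∈ S, x < y → G x < G y := by
  have h2 : ∀ x ∈ S, G x ≤ G d := by
    intro x hx
    by_contra hcon
    push Not at hcon
    have hxd : x ≤ d := (hS hx).2
    have hcx : c ≤ x := (hS hx).1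
    obtain ⟨t, ht, hGt⟩ := intermediate_value_Icc hcx hG.continuousOn
      (show G d ∈ Icc (G c) (G x) from ⟨hcd.le, hcon.le⟩)
    have := hinj t ⟨ht.1, ht.2.trans hxd⟩ d hd hGt
    have : x = d := le_antisymm hxd (this ▸ ht.2)
    rw [this] at hcon
    exact lt_irrefl _ hcon
  intro x hx y hy hxy
  by_contra hcon
  push Not at hcon
  rcases eq_or_lt_of_le hcon with h | h
  · exact hxy.ne' (hinj y (hS hy) x hx h)
  · obtain ⟨t, ht, hGt⟩ := intermediate_value_Icc (hS hy).2 hG.continuousOn
      (show G x ∈ Icc (G y) (G d) from ⟨h.le, h2 x hx⟩)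
    have := hinj t ⟨(hS hy).1.trans ht.1, ht.2⟩ x hx hGt
    linarith [ht.1]

section

variable {r r' : ℕ → ℕ → Prop} (hr : STO r) (hr' : STO r')
variable {α : ℝ} (hα : Irrational α) (H : T2 ≃ₜ T2) (hH : ∀ p, H (tor α hr p) = tor α hr' (H p))

theorem fix_zero : oc hr ((0:ℝ) : T1) = ((0:ℝ) : T1) := by
  rw [oc_coe, ol_fix hr le_rfl zero_le_one (fun n => Or.inl (aL_nonneg r n))]

theorem fix_half : oc hr ((1 / 2:ℝ) : T1) = ((1 / 2:ℝ) : T1) := by
  rw [oc_coe, ol_fix hr (by norm_num) (by norm_num) (fun n => Or.inr (aL_le_half hr n))]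

include hα hH in
theorem bwd (hw : WellFounded r') : WellFounded r := by
  classical
  have hcoe : Continuous (fun x : ℝ => (x : T1)) := AddCircle.continuous_mk' 1
  -- the lift
  let g : C(ℝ, T1) := ⟨fun x => (H (0, (x : T1))).2, by
    exact continuous_snd.comp (H.continuous.comp (by fun_prop))⟩
  obtain ⟨e0, he0⟩ := QuotientAddGroup.mk_surjective (g 0)
  obtain ⟨G, ⟨-, hG⟩, -⟩ := (AddCircle.isCoveringMap_coe (1:ℝ)).existsUnique_continuousMap_lifts g
    (a₀ := 0) (e₀ := e0) he0
  have hGg : ∀ x : ℝ, ((G x : ℝ) : T1) = (H (0, (x : T1))).2 := fun x => congrFun hG x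
  -- the fixed points
  set S : Set ℝ := {x | x ∈ Icc (0:ℝ) (1 / 2) ∧ oc hr (x : T1) = (x : T1)} with hS
  have hSsub : S ⊆ Icc (0:ℝ) (1/2) := fun x hx => hx.1
  have h0S : (0:ℝ) ∈ S := ⟨by constructor <;> norm_num, fix_zero hr⟩
  have h1S : (1/2:ℝ) ∈ S := ⟨by constructor <;> norm_num, fix_half hr⟩
  have hfix : ∀ x : ℝ, oc hr' ((G x : ℝ) : T1) = ((G x : ℝ) : T1) ↔ oc hr (x : T1) = (x : T1) := by
    intro x
    rw [hGg]
    exact (fix_iff hr hr' hα H hH (0, (x : T1))).symm
  have hinj : ∀ x ∈ Icc (0:ℝ) (1/2), ∀ y ∈ S, G x = G y → x = y := by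
    intro x hx y hy hxy
    have h1 : oc hr (x : T1) = (x : T1) := by
      rw [← hfix x, hxy, hfix y]; exact hy.2
    have h2 := inj_fix hr hr' hα H hH h1 (z' := (y : T1)) (by rw [← hGg, ← hGg, hxy])
    exact coe_inj01 ⟨hx.1, by linarith [hx.2]⟩ ⟨hy.1.1, by linarith [hy.1.2]⟩ h2
  -- slots
  have hslot : ∀ n, ∃ (k : ℕ) (m : ℤ), G (aL r n) = aL r' k + m ∧ G (aL r n + w n) = aL r' k + w k + m := by
    intro n
    have hwn := w_pos n
    have ha0 := aL_nonneg r n
    have ha1 := aL_le_half hr n
    have hhalf : (1/2:ℝ) ∈ Ioo (0:ℝ) 1 := by constructor <;> norm_num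
    -- the midpoint
    rcases slot_or_fix hr' (H (0, ((aL r n + w n * (1/2) : ℝ) : T1))).2 with h | ⟨k, s, hs, hks⟩
    · exfalso
      exact slot_not_fix hr n hhalf ((fix_iff hr hr' hα H hH (0, _)).2 h)
    have hwk := w_pos k
    have hwk' := w_le k
    have hk0 := aL_nonneg r' k
    have hk1 := aL_le_half hr' k
    have hA := endpt hr hr' hα H hH (Ioo_subset_Icc_self hhalf) (Ioo_subset_Icc_self hs) hks
      (fun j => -(j:ℤ)) (e := 0)
      (zp_tendsto_zero (Fs_zero n) (Fs_one n) (fun t ht => lt_Fs n ht) hhalf)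
      (zp_tendsto_zero (Fs_zero k) (Fs_one k) (fun t ht => lt_Fs k ht) hs) (fix_end0 hr n)
    have hB := endpt hr hr' hα H hH (Ioo_subset_Icc_self hhalf) (Ioo_subset_Icc_self hs) hks
      (fun j => (j:ℤ)) (e := 1)
      (zp_tendsto_one (Fs_zero n) (Fs_one n) (fun t ht => lt_Fs n ht) hhalf)
      (zp_tendsto_one (Fs_zero k) (Fs_one k) (fun t ht => lt_Fs k ht) hs) (fix_end1 hr n)
    simp only [mul_zero, add_zero, mul_one] at hA hB
    -- the value at the midpoint
    have hmid : ∃ m : ℤ, G (aL r n + w n * (1/2)) = aL r' k + w k * s + m := by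
      apply (coe_eq_iff _ _).1
      rw [hGg, hks]
    obtain ⟨m, hm⟩ := hmid
    have hlo : aL r' k + m < G (aL r n + w n * (1/2)) := by
      rw [hm]; have := mul_pos hwk hs.1; linarith
    have hhi : G (aL r n + w n * (1/2)) < aL r' k + w k + m := by
      rw [hm]; have := mul_lt_of_lt_one_right hwk hs.2; linarith
    have hlofix : oc hr' ((aL r' k + m : ℝ) : T1) = ((aL r' k + m : ℝ) : T1) := by
      have h1 : ((aL r' k + m : ℝ) : T1) = ((aL r' k : ℝ) : T1) := (coe_eq_iff _ _).2 ⟨m, rfl⟩
      rw [h1]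
      have := fix_end0 hr' k
      simpa using this
    have hhifix : oc hr' ((aL r' k + w k + m : ℝ) : T1) = ((aL r' k + w k + m : ℝ) : T1) := by
      have h1 : ((aL r' k + w k + m : ℝ) : T1) = ((aL r' k + w k : ℝ) : T1) :=
        (coe_eq_iff _ _).2 ⟨m, rfl⟩
      rw [h1]
      have := fix_end1 hr' k
      simpa using this
    have hkey : ∀ e : ℝ, oc hr (e : T1) = (e : T1) →
        (∀ t ∈ uIcc (aL r n + w n * (1/2)) e, oc hr (t : T1) = (t : T1) → t = e) →
        G e = aL r' k + m ∨ G e = aL r' k + w k + m := by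
      intro e he hun
      have hivt := intermediate_value_uIcc (a := aL r n + w n * (1/2)) (b := e) (f := G)
        G.continuous.continuousOn
      rcases lt_trichotomy (G e) (aL r' k + m) with h | h | h
      · exfalso
        obtain ⟨t, ht, hGt⟩ := hivt (show aL r' k + m ∈ _ from by
          rw [uIcc_comm, uIcc_of_le (h.trans hlo).le]; exact ⟨h.le, hlo.le⟩)
        have h2 := hun t ht ((hfix t).1 (by rw [hGt]; exact hlofix))
        rw [← h2, hGt] at h
        exact lt_irrefl _ h
      · exact Or.inl h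
      · right
        rcases lt_trichotomy (G e) (aL r' k + w k + m) with h3 | h3 | h3
        · exfalso
          have h4 : G e = (aL r' k + w k * ((G e - m - aL r' k) / w k)) + m := by
            field_simp
            ring
          have h5 : ((G e : ℝ) : T1) = ((aL r' k + w k * ((G e - m - aL r' k) / w k) : ℝ) : T1) :=
            (coe_eq_iff _ _).2 ⟨m, h4⟩
          have h6 := (hfix e).2 he
          rw [h5] at h6
          refine slot_not_fix hr' k ⟨div_pos (by linarith) hwk, ?_⟩ h6
          rw [div_lt_one hwk]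
          linarith
        · exact h3
        · exfalso
          obtain ⟨t, ht, hGt⟩ := hivt (show aL r' k + w k + m ∈ _ from by
            rw [uIcc_of_le (hhi.trans h3).le]; exact ⟨hhi.le, h3.le⟩)
          have h2 := hun t ht ((hfix t).1 (by rw [hGt]; exact hhifix))
          rw [← h2, hGt] at h3
          exact lt_irrefl _ h3
    have hwint : ∀ j : ℤ, w k ≠ j := by
      intro j hj
      have h1 : (0:ℝ) < j := hj ▸ hwk
      have h2 : (j:ℝ) ≤ 1 / 4 := hj ▸ hwk'
      have h3 : (1:ℤ) ≤ j := by exact_mod_cast h1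
      have h4 : (1:ℝ) ≤ j := by exact_mod_cast h3
      linarith
    have hbet : ∀ t, aL r n < t → t < aL r n + w n → oc hr (t : T1) ≠ (t : T1) := by
      intro t h1 h2
      have h3 : t = aL r n + w n * ((t - aL r n) / w n) := by
        field_simp
        ring
      rw [h3]
      refine slot_not_fix hr n ⟨div_pos (by linarith) hwn, ?_⟩
      rw [div_lt_one hwn]
      linarith
    refine ⟨k, m, ?_, ?_⟩
    · have hfa : oc hr ((aL r n : ℝ) : T1) = ((aL r n : ℝ) : T1) := by
        have := fix_end0 hr n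
        simpa using this
      rcases hkey (aL r n) hfa (fun t ht h => by
        rw [uIcc_comm, uIcc_of_le (by linarith)] at ht
        by_contra hne
        exact hbet t (lt_of_le_of_ne ht.1 (Ne.symm hne)) (by linarith [ht.2]) h) with h | h
      · exact h
      · exfalso
        rw [← hGg] at hA
        obtain ⟨j, hj⟩ := (coe_eq_iff _ _).1 hA
        apply hwint (j - m)
        push_cast
        linarith
    · have hfb : oc hr ((aL r n + w n : ℝ) : T1) = ((aL r n + w n : ℝ) : T1) := by
        have := fix_end1 hr n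
        simpa using this
      rcases hkey (aL r n + w n) hfb (fun t ht h => by
        rw [uIcc_of_le (by linarith)] at ht
        by_contra hne
        exact hbet t (by linarith [ht.1]) (lt_of_le_of_ne ht.2 hne) h) with h | h
      · exfalso
        rw [← hGg] at hB
        obtain ⟨j, hj⟩ := (coe_eq_iff _ _).1 hB
        apply hwint (m - j)
        push_cast
        linarith
      · exact h
  choose k m hk1 hk2 using hslot
  have hSa : ∀ n, aL r n ∈ S := fun n => by
    have h1 := aL_nonneg r n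
    have h2 := aL_le_half hr n
    have h3 := w_pos n
    refine ⟨⟨h1, by linarith⟩, ?_⟩
    have := fix_end0 hr n
    simpa using this
  have hSb : ∀ n, aL r n + w n ∈ S := fun n => by
    have h1 := aL_nonneg r n
    have h2 := aL_le_half hr n
    have h3 := w_pos n
    refine ⟨⟨by linarith, by linarith⟩, ?_⟩
    have := fix_end1 hr n
    simpa using this
  have hmono : ∀ x ∈ S, ∀ y ∈ S, x < y → G x < G y := by
    rcases lt_trichotomy (G 0) (G (1/2)) with h | h | h
    · exact ivt_mono G.continuous hSsub h1S hinj h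
    · have := hinj 0 (hSsub h0S) _ h1S h
      norm_num at this
    · exfalso
      have h2 := ivt_mono (G := fun x => - G x) G.continuous.neg hSsub h1S
        (fun x hx y hy hxy => hinj x hx y hy (neg_injective hxy)) (by simpa using h)
        (aL r 0) (hSa 0) (aL r 0 + w 0) (hSb 0) (by linarith [w_pos 0])
      rw [hk1, hk2] at h2
      linarith [w_pos (k 0)]
  have hlow : ∀ n, ⌊G 0⌋ ≤ m n := by
    intro n
    have h1 := aL_nonneg r n
    have h2 := w_pos n
    have h3 := hmono 0 h0S _ (hSb n) (by linarith)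
    rw [hk2] at h3
    have h4 := aL_le_half hr' (k n)
    have h5 := Int.floor_le (G 0)
    have h6 : ((⌊G 0⌋ : ℤ) : ℝ) < m n + 1 := by linarith
    have h7 : ⌊G 0⌋ < m n + 1 := by exact_mod_cast h6
    omega
  have hwf : WellFounded (Prod.Lex (α := ℕ) (β := ℕ) (· < ·) r') :=
    WellFounded.prod_lex Nat.lt_wfRel.wf hw
  refine Subrelation.wf ?_ (InvImage.wf (fun n => ((m n - ⌊G 0⌋).toNat, k n)) hwf)
  intro i j hij
  have h1 := aL_add_le hr hij
  have h2 := w_pos j
  have h3 := hmono _ (hSb i) _ (hSb j) (by linarith)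
  rw [hk2, hk2] at h3
  have hi1 := aL_le_half hr' (k i)
  have hi2 := aL_nonneg r' (k i)
  have hi3 := w_pos (k i)
  have hj1 := aL_le_half hr' (k j)
  have hj2 := aL_nonneg r' (k j)
  have hj3 := w_pos (k j)
  have hli := hlow i
  have hlj := hlow j
  show Prod.Lex (· < ·) r' _ _
  rw [Prod.lex_def]
  simp only
  rcases lt_trichotomy (m i) (m j) with h | h | h
  · left; omega
  · right
    refine ⟨by rw [h], ?_⟩
    rw [h] at h3
    rcases hr'.tot (k i) (k j) with h4 | h4 | h4
    · rw [h4] at h3; exact absurd h3 (lt_irrefl _)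
    · exact h4
    · have := aL_add_le hr' h4
      linarith
  · exfalso
    have h4 : (m j : ℝ) + 1 ≤ m i := by exact_mod_cast h
    linarith

end

end Pool.Agent.H410R3.KS
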