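import Mathlib

/-!
# Kupka-Smale diffeomorphisms, the `C^r` topology and topological conjugacy
-/

open Set Filter Topology
open scoped Manifold ContDiff

namespace Pool.Agent.H410R3.KS

section General

variable {E H : Type} [NormedAddCommGroup E] [NormedSpace ℝ E] [FiniteDimensional ℝ E]
  [TopologicalSpace H] (I : ModelWithCorners ℝ E H)
  (M : Type) [TopologicalSpace M] [ChartedSpace H M]

/-- The group `Diff^r(M)` of the `C^r` diffeomorphisms of the manifold `M` (with model `I`). -/
def DiffR (r : ℕ∞) : Type := Diffeomorph I I M M (r : WithTop ℕ∞)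

variable {M}

/-- The map underlying a diffeomorphism. -/
def DiffR.map {I : ModelWithCorners ℝ E H} {r : ℕ∞} (f : DiffR I M r) : M → M :=
  (Diffeomorph.toEquiv f : M ≃ M)

/-- The inverse map. -/
def DiffR.inv {I : ModelWithCorners ℝ E H} {r : ℕ∞} (f : DiffR I M r) : M → M :=
  (Diffeomorph.toEquiv f : M ≃ M).symm

/-- The map `f`, read in the charts of `M` at `x` and at `y`. -/
noncomputable def localRep (x y : M) (f : M → M) : E → E :=
  fun u => extChartAt I y (f ((extChartAt I x).symm u))

/-- The basic neighbourhoods `N(f; x, y, K, k, ε)` of the `C^r` topology: all `g` mapping `K`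
(contained in the domain of the chart at `x`) into the domain of the chart at `y`, such that the
derivatives of order `≤ k` of the local representatives of `f` and `g` differ by less than `ε`
on `K`. -/
def basicNhd {r : ℕ∞} (f : DiffR I M r) (x y : M) (K : Set M) (k : ℕ) (ε : ℝ) :
    Set (DiffR I M r) :=
  {g | MapsTo g.map K (chartAt H y).source ∧ ∀ z ∈ K, ∀ j ≤ k,
    ‖iteratedFDeriv ℝ j (localRep I x y g.map) (extChartAt I x z) -
      iteratedFDeriv ℝ j (localRep I x y f.map) (extChartAt I x z)‖ < ε}

variable (M) in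
/-- The `C^r` topology on `Diff^r(M)`, generated by the basic neighbourhoods `N(f; x, y, K, k, ε)`
with `K` a compact subset of the domain of the chart at `x`, `f(K)` contained in the domain of the
chart at `y`, `k ≤ r` a natural number and `ε > 0`. -/
@[instance_reducible] def crTopology (r : ℕ∞) : TopologicalSpace (DiffR I M r) :=
  TopologicalSpace.generateFrom
    {S | ∃ (f : DiffR I M r) (x y : M) (K : Set M) (k : ℕ) (ε : ℝ),
      IsCompact K ∧ K ⊆ (chartAt H x).source ∧ MapsTo f.map K (chartAt H y).source ∧
      (k : ℕ∞) ≤ r ∧ 0 < ε ∧ S = basicNhd I f x y K k ε}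

/-- The `f`-orbits of `x` and `p` are forward asymptotic. -/
def Asymptotic (f : M → M) (x p : M) : Prop :=
  Tendsto (fun n : ℕ => (f^[n] x, f^[n] p)) atTop (𝓝ˢ (diagonal M))

variable [IsManifold I ∞ M]

/-- The tangent vector `v` at `x` is contracted: `D(f^n)(x) v` tends to the zero section. For `x` in
the stable manifold of a hyperbolic periodic orbit, these are the vectors tangent to it. -/
def StableVector (f : M → M) (x : M) (v : TangentSpace I x) : Prop :=
  Tendsto (fun n : ℕ => tangentMap I I (f^[n]) ⟨x, v⟩) atTop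
    (𝓝ˢ (range fun y : M => (⟨y, 0⟩ : TangentBundle I M)))

/-- Kupka-Smale diffeomorphisms. -/
structure IsKupkaSmale {r : ℕ∞} (f : DiffR I M r) : Prop where
  /-- Every periodic orbit is hyperbolic: if `f^k(p) = p`, `k ≥ 1`, no (complex) eigenvalue of
  `D(f^k)(p) : T_p M → T_p M` has modulus one. -/
  hyperbolic : ∀ (p : M) (k : ℕ), 0 < k → f.map^[k] p = p → ∀ (A : E →ₗ[ℝ] E),
    (∀ v : E, A v = mfderiv I I (f.map^[k]) p v) →
    ∀ μ : ℂ, (A.charpoly.map (algebraMap ℝ ℂ)).IsRoot μ → ‖μ‖ ≠ 1
  /-- The stable manifold of a periodic orbit and the unstable manifold of a periodic orbit are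
  transverse at each common point. -/
  transverse : ∀ (p q : M), p ∈ Function.periodicPts f.map → q ∈ Function.periodicPts f.map →
    ∀ x : M, Asymptotic f.map x p → Asymptotic f.inv x q →
    ∀ w : TangentSpace I x, ∃ a b : TangentSpace I x,
      StableVector I f.map x a ∧ StableVector I f.inv x b ∧ w = a + b

variable (M) in
/-- The set `KS^r(M)` of the Kupka-Smale diffeomorphisms of class `C^r`. -/
def KSDiff (r : ℕ∞) : Type := {f : DiffR I M r // IsKupkaSmale I f}

/-- `KS^r(M)` carries the subspace topology of the `C^r` topology. -/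
instance (r : ℕ∞) : TopologicalSpace (KSDiff I M r) :=
  TopologicalSpace.induced Subtype.val (crTopology I M r)

/-- Topological conjugacy. -/
def TopConj (f g : M → M) : Prop := ∃ h : M ≃ₜ M, ∀ x, h (f x) = g (h x)

variable (M) in
/-- Topological conjugacy on `KS^r(M)` is a Borel subset of `KS^r(M) × KS^r(M)`. -/
def ConjIsBorel (r : ℕ∞) : Prop :=
  @MeasurableSet (KSDiff I M r × KSDiff I M r) (borel (KSDiff I M r × KSDiff I M r))
    {p : KSDiff I M r × KSDiff I M r | TopConj p.1.1.map p.2.1.map}

end General

end Pool.Agent.H410R3.KS
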