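import Mathlib

/-!
# Joint continuity of partial derivatives
-/

open Set Filter Topology
open scoped ContDiff

namespace Pool.Agent.H410R3.KS

variable {P E F : Type*} [NormedAddCommGroup P] [NormedSpace ℝ P] [NormedAddCommGroup E]
  [NormedSpace ℝ E] [NormedAddCommGroup F] [NormedSpace ℝ F]

theorem partial_eq {R : P × E → F} {j : ℕ} {q : P × E} (hR : ContDiffAt ℝ (j : WithTop ℕ∞) R q) :
    iteratedFDeriv ℝ j (fun u => R (q.1, u)) q.2 =
      (iteratedFDeriv ℝ j R q).compContinuousLinearMap
        (fun _ => ContinuousLinearMap.inr ℝ P E) := by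
  set s : Set (P × E) := {v | ContDiffAt ℝ (j : WithTop ℕ∞) R (v + (q.1, 0))} with hs
  have hs0 : IsOpen {v | ContDiffAt ℝ (j : WithTop ℕ∞) R v} := by
    rw [isOpen_iff_eventually]
    intro v hv
    have hv' : ContDiffAt ℝ (j : WithTop ℕ∞) R v := hv
    exact hv'.eventually (by simp)
  have hso : IsOpen s := hs0.preimage (continuous_id.add continuous_const)
  have hR' : ContDiffOn ℝ (j : WithTop ℕ∞) (fun v => R (v + (q.1, 0))) s := by
    intro v hv
    apply ContDiffAt.contDiffWithinAt
    exact ContDiffAt.comp v hv (contDiffAt_id.add contDiffAt_const)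
  have hpre : IsOpen ((ContinuousLinearMap.inr ℝ P E) ⁻¹' s) :=
    hso.preimage (ContinuousLinearMap.inr ℝ P E).continuous
  have hq : ContinuousLinearMap.inr ℝ P E q.2 ∈ s := by
    show ContDiffAt ℝ (j : WithTop ℕ∞) R ((0, q.2) + (q.1, 0))
    simpa using hR
  have h1 := (ContinuousLinearMap.inr ℝ P E).iteratedFDerivWithin_comp_right hR'
    hso.uniqueDiffOn hpre.uniqueDiffOn (x := q.2) hq (i := j) le_rfl
  rw [iteratedFDerivWithin_of_isOpen j hpre hq, iteratedFDerivWithin_of_isOpen j hso hq] at h1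
  have e1 : (fun v => R (v + (q.1, 0))) ∘ (ContinuousLinearMap.inr ℝ P E) = fun u => R (q.1, u) := by
    funext u
    simp
  rw [e1] at h1
  rw [h1, iteratedFDeriv_comp_add_right]
  simp

theorem partial_cont {R : P × E → F} {q : P × E} (hR : ContDiffAt ℝ ∞ R q) (j : ℕ) :
    ContinuousAt (fun q : P × E => iteratedFDeriv ℝ j (fun u => R (q.1, u)) q.2) q := by
  have hj : ContDiffAt ℝ (j : WithTop ℕ∞) R q := hR.of_le (by exact_mod_cast le_top)
  have h1 : ContinuousAt (iteratedFDeriv ℝ j R) q := by
    have : ContDiffAt ℝ 0 (iteratedFDeriv ℝ j R) q := hR.iteratedFDeriv_right (m := 0) (i := j)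
      (by rw [zero_add]; exact_mod_cast le_top)
    exact this.continuousAt
  have h2 : ContinuousAt (fun q => (iteratedFDeriv ℝ j R q).compContinuousLinearMap
        (fun _ => ContinuousLinearMap.inr ℝ P E)) q := by
    exact ((ContinuousMultilinearMap.compContinuousLinearMapL (𝕜 := ℝ) (F := F)
      (fun _ : Fin j => ContinuousLinearMap.inr ℝ P E)).continuous.continuousAt).comp h1
  refine h2.congr ?_
  filter_upwards [hj.eventually (by simp)] with v hv
  exact (partial_eq hv).symm

end Pool.Agent.H410R3.KS
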