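import Mathlib
import Pool.Agent.Helper114.AB.J
import Pool.Agent.H410R3.KS.Defs
import Pool.Agent.H410R3.KS.Bwd2
import Pool.Agent.H410R3.KS.Par

/-!
# The family as Kupka-Smale diffeomorphisms of the torus `Circle × Circle`
-/

open Set Filter Topology
open scoped Manifold ContDiff
open Pool.Agent.Helper114.AB

namespace Pool.Agent.H410R3.KS

/-- the model of the torus -/
noncomputable abbrev II := (𝓡 1).prod (𝓡 1)
/-- the torus -/
abbrev CC : Type := Circle × Circle
/-- the model space of the torus -/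
abbrev EE : Type := EuclideanSpace ℝ (Fin 1) × EuclideanSpace ℝ (Fin 1)

/-- smoothness of families of maps of the torus with smooth lifts -/
theorem descend {P : Type} [NormedAddCommGroup P] [NormedSpace ℝ P]
    (G : P × (ℝ × ℝ) → ℝ × ℝ) (hG : ContDiff ℝ ∞ G) (f : P → T2 → T2)
    (hf : ∀ (a : P) (p : ℝ × ℝ), f a ((p.1 : T1), (p.2 : T1)) =
      (((G (a, p)).1 : T1), ((G (a, p)).2 : T1))) :
    ContMDiff (𝓘(ℝ, P).prod II) II ∞ (fun q : P × CC => EM (f q.1 (EM.symm q.2))) := by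
  rintro ⟨a0, z0, w0⟩
  have e : (fun q : P × CC => EM (f q.1 (EM.symm q.2))) = fun q : P × CC =>
      (Circle.exp (2 * Real.pi / 1 * (G (q.1, (lcv z0 q.2.1, lcv w0 q.2.2))).1),
        Circle.exp (2 * Real.pi / 1 * (G (q.1, (lcv z0 q.2.1, lcv w0 q.2.2))).2)) := by
    funext q
    obtain ⟨a, z, w⟩ := q
    simp only
    rw [EM_lcv z0 w0 z w, hf a (lcv z0 z, lcv w0 w), EM_mk]
  rw [e]
  have h0 : ContMDiffAt (𝓘(ℝ, P).prod II) 𝓘(ℝ, P) ∞ (fun q : P × CC => q.1) (a0, z0, w0) :=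
    contMDiffAt_fst
  have hs : ContMDiffAt (𝓘(ℝ, P).prod II) II ∞ (fun q : P × CC => q.2) (a0, z0, w0) :=
    contMDiffAt_snd
  have hS1 : ContMDiffAt (𝓘(ℝ, P).prod II) 𝓘(ℝ, ℝ) ∞
      (fun q : P × CC => lcv z0 q.2.1) (a0, z0, w0) :=
    ContMDiffAt.comp (a0, z0, w0) ((lcv_contMDiffAt z0).of_le le_top)
      (ContMDiffAt.comp (g := Prod.fst) (a0, z0, w0) contMDiffAt_fst hs)
  have hS2 : ContMDiffAt (𝓘(ℝ, P).prod II) 𝓘(ℝ, ℝ) ∞
      (fun q : P × CC => lcv w0 q.2.2) (a0, z0, w0) :=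
    ContMDiffAt.comp (a0, z0, w0) ((lcv_contMDiffAt w0).of_le le_top)
      (ContMDiffAt.comp (g := Prod.snd) (a0, z0, w0) contMDiffAt_snd hs)
  have hS : ContMDiffAt (𝓘(ℝ, P).prod II) 𝓘(ℝ, P × (ℝ × ℝ)) ∞
      (fun q : P × CC => (q.1, (lcv z0 q.2.1, lcv w0 q.2.2))) (a0, z0, w0) :=
    h0.prodMk_space (hS1.prodMk_space hS2)
  have hG1 : ContDiff ℝ ∞ fun p : P × (ℝ × ℝ) => 2 * Real.pi / 1 * (G p).1 :=
    contDiff_const.mul hG.fst
  have hG2 : ContDiff ℝ ∞ fun p : P × (ℝ × ℝ) => 2 * Real.pi / 1 * (G p).2 :=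
    contDiff_const.mul hG.snd
  have k1 := ContMDiffAt.comp (g := fun p : P × (ℝ × ℝ) => 2 * Real.pi / 1 * (G p).1) (a0, z0, w0)
      (hG1.contMDiff.contMDiffAt) hS
  have k2 := ContMDiffAt.comp (g := fun p : P × (ℝ × ℝ) => 2 * Real.pi / 1 * (G p).2) (a0, z0, w0)
      (hG2.contMDiff.contMDiffAt) hS
  have m1 := ContMDiffAt.comp (g := fun t : ℝ => Circle.exp t) (a0, z0, w0)
    (contMDiff_circleExp.contMDiffAt) k1
  have m2 := ContMDiffAt.comp (g := fun t : ℝ => Circle.exp t) (a0, z0, w0)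
    (contMDiff_circleExp.contMDiffAt) k2
  exact m1.prodMk m2

/-- the torus maps with parameter -/
noncomputable def torP (α : ℝ) (p : PP) : T2 ≃ₜ T2 :=
  (Homeomorph.addRight (α : T1)).prodCongr (circ p)

theorem torP_coe (α : ℝ) (p : PP) (s t : ℝ) :
    torP α p ((s : T1), (t : T1)) = (((s + α : ℝ) : T1), ((fl p t : ℝ) : T1)) := by
  refine Prod.ext ?_ ?_
  · show (s : T1) + (α : T1) = ((s + α : ℝ) : T1)
    rw [AddCircle.coe_add]
  · exact circ_coe p t

theorem torP_smooth (α : ℝ) : ContMDiff (𝓘(ℝ, PP).prod II) II ∞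
    (fun q : PP × CC => EM (torP α q.1 (EM.symm q.2))) := by
  refine descend (fun q : PP × (ℝ × ℝ) => (q.2.1 + α, fl q.1 q.2.2)) ?_ (fun p => torP α p) ?_
  · refine ContDiff.prodMk ?_ ?_
    · exact (contDiff_fst.comp contDiff_snd).add contDiff_const
    · exact fl_contDiff'.comp (contDiff_fst.prodMk (contDiff_snd.comp contDiff_snd))
  · intro a v
    exact torP_coe α a v.1 v.2

theorem torP_symm_coe (α : ℝ) (p : PP) (s t : ℝ) :
    (torP α p).symm ((s : T1), (t : T1)) = (((s - α : ℝ) : T1), (((flH p).symm t : ℝ) : T1)) := by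
  refine Prod.ext ?_ ?_
  · show (s : T1) + -(α : T1) = ((s - α : ℝ) : T1)
    rw [AddCircle.coe_sub, sub_eq_add_neg]
  · exact circH_symm_coe _ _ t

theorem torP_symm_smooth0 (α : ℝ) (p : PP) : ContMDiff (𝓘(ℝ, PP).prod II) II ∞
    (fun q : PP × CC => EM ((torP α p).symm (EM.symm q.2))) := by
  refine descend (fun q : PP × (ℝ × ℝ) => (q.2.1 - α, (flH p).symm q.2.2)) ?_
    (fun _ => (torP α p).symm) ?_
  · refine ContDiff.prodMk ?_ ?_
    · exact (contDiff_fst.comp contDiff_snd).sub contDiff_const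
    · exact (flH_symm_contDiff p).comp (contDiff_snd.comp contDiff_snd)
  · intro a v
    exact torP_symm_coe α p v.1 v.2

theorem torP_symm_smooth (α : ℝ) (p : PP) : ContMDiff II II ∞
    (fun q : CC => EM ((torP α p).symm (EM.symm q))) := by
  have h := torP_symm_smooth0 α p
  have h2 : ContMDiff II (𝓘(ℝ, PP).prod II) ∞ (fun q : CC => ((0 : PP), q)) :=
    contMDiff_const.prodMk contMDiff_id
  have h3 := ContMDiff.comp (g := fun q : PP × CC => EM ((torP α p).symm (EM.symm q.2))) h h2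
  exact h3

theorem torP_smooth' (α : ℝ) (p : PP) : ContMDiff II II ∞
    (fun q : CC => EM (torP α p (EM.symm q))) := by
  have h2 : ContMDiff II (𝓘(ℝ, PP).prod II) ∞ (fun q : CC => (p, q)) :=
    contMDiff_const.prodMk contMDiff_id
  have h := torP_smooth α
  have h3 := ContMDiff.comp (g := fun q : PP × CC => EM (torP α q.1 (EM.symm q.2))) h h2
  exact h3

/-- the diffeomorphisms -/
noncomputable def toD (α : ℝ) (r : ℕ∞) (p : PP) : DiffR II CC r :=
  { toEquiv := (EM.symm.trans ((torP α p).trans EM)).toEquiv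
    contMDiff_toFun := (torP_smooth' α p).of_le (by exact_mod_cast le_top)
    contMDiff_invFun := (torP_symm_smooth α p).of_le (by exact_mod_cast le_top) }

theorem toD_map (α : ℝ) (r : ℕ∞) (p : PP) (q : CC) :
    (toD α r p).map q = EM (torP α p (EM.symm q)) := rfl

theorem toD_iter (α : ℝ) (r : ℕ∞) (p : PP) (k : ℕ) (q : CC) :
    ((toD α r p).map^[k] q) = EM ((torP α p)^[k] (EM.symm q)) := by
  induction k generalizing q with
  | zero => simp
  | succ n ih =>
    rw [Function.iterate_succ_apply, ih, toD_map, EM.symm_apply_apply, Function.iterate_succ_apply]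

theorem torP_iter_fst (α : ℝ) (p : PP) (k : ℕ) (q : T2) :
    ((torP α p)^[k] q).1 = q.1 + k • (α : T1) := by
  induction k generalizing q with
  | zero => simp
  | succ n ih =>
    rw [Function.iterate_succ_apply, ih]
    show q.1 + (α : T1) + n • (α : T1) = _
    rw [succ_nsmul']; abel

theorem nsmul_ne {α : ℝ} (hα : Irrational α) {k : ℕ} (hk : 0 < k) : k • (α : T1) ≠ 0 := by
  intro h
  have h1 : ((k * α : ℝ) : T1) = 0 := by
    rw [← h, ← AddCircle.coe_nsmul, nsmul_eq_mul]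
  rw [AddCircle.coe_eq_zero_iff] at h1
  obtain ⟨n, hn⟩ := h1
  have h2 : (k:ℝ) * α = n := by simpa using hn.symm
  have h3 : Irrational ((k:ℝ) * α) := by
    exact_mod_cast hα.natCast_mul hk.ne'
  rw [h2] at h3
  exact h3 ⟨n, by simp⟩

theorem no_per {α : ℝ} (hα : Irrational α) (r : ℕ∞) (p : PP) {k : ℕ} (hk : 0 < k) (q : CC) :
    (toD α r p).map^[k] q ≠ q := by
  intro h
  rw [toD_iter] at h
  have h1 : (torP α p)^[k] (EM.symm q) = EM.symm q := by
    rw [Homeomorph.eq_symm_apply, h]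
  have h2 := congrArg Prod.fst h1
  rw [torP_iter_fst] at h2
  exact nsmul_ne hα hk (by simpa using h2)

theorem toD_ks {α : ℝ} (hα : Irrational α) (r : ℕ∞) (p : PP) : IsKupkaSmale II (toD α r p) where
  hyperbolic q k hk h := absurd h (no_per hα r p hk q)
  transverse q _ hq := by
    obtain ⟨k, hk, h⟩ := hq
    exact absurd h (no_per hα r p hk q)

/-- the family in `KS^r` -/
noncomputable def toKS {α : ℝ} (hα : Irrational α) (r : ℕ∞) (p : PP) : KSDiff II CC r :=
  ⟨toD α r p, toD_ks hα r p⟩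

end Pool.Agent.H410R3.KS
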