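import Mathlib
import Pool.Agent.H410R3.KS.Cont

/-!
# Topological conjugacy of Kupka-Smale diffeomorphisms of the torus is not Borel
-/

open Set Filter Topology
open scoped Manifold ContDiff
open Pool.Agent.Helper114.AB

namespace Pool.Agent.H410R3.KS

theorem meas_ctr {r : (ℕ → ℕ) → ℕ → ℕ → Prop} (hr : ∀ y, STO (r y))
    (h : ∀ m n, MeasurableSet {y | r y m n}) : Measurable (fun y => ctr (hr y)) := by
  refine measurable_pi_lambda _ fun n => Measurable.subtype_mk ?_
  exact (meas_aL306 h n).add_const _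

theorem conj_iff {α : ℝ} (hα : Irrational α) (r : ℕ∞) (p p' : PP) :
    TopConj (toKS hα r p).1.map (toKS hα r p').1.map ↔
      ∃ H : T2 ≃ₜ T2, ∀ q, H (torP α p q) = torP α p' (H q) := by
  constructor
  · rintro ⟨h, hh⟩
    refine ⟨EM.trans (h.trans EM.symm), fun q => ?_⟩
    have h1 := hh (EM q)
    have e1 : (toKS hα r p).1.map (EM q) = EM (torP α p q) := by
      show EM (torP α p (EM.symm (EM q))) = _
      rw [EM.symm_apply_apply]
    rw [e1] at h1
    simp only [Homeomorph.trans_apply]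
    rw [h1]
    show EM.symm (EM (torP α p' (EM.symm (h (EM q))))) = _
    rw [EM.symm_apply_apply]
  · rintro ⟨H, hH⟩
    refine ⟨EM.symm.trans (H.trans EM), fun x => ?_⟩
    simp only [Homeomorph.trans_apply]
    have e1 : EM.symm ((toKS hα r p).1.map x) = torP α p (EM.symm x) := by
      show EM.symm (EM (torP α p (EM.symm x))) = _
      rw [EM.symm_apply_apply]
    rw [e1, hH]
    show _ = EM (torP α p' (EM.symm (EM (H (EM.symm x)))))
    rw [EM.symm_apply_apply]

/-- For every `r ∈ {1, 2, …, ∞}` topological conjugacy of the Kupka-Smale `C^r` diffeomorphisms of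
the torus is not Borel. -/
theorem main (r : ℕ∞) : ¬ ConjIsBorel II CC r := by
  intro hB
  obtain ⟨Nb, r1, r2, hNb, s1, s2, m1, m2, hiso, hwf, hdl⟩ := orders
  have hα : Irrational (Real.sqrt 2) := irrational_sqrt_two
  let _ : MeasurableSpace (KSDiff II CC r × KSDiff II CC r) :=
    borel (KSDiff II CC r × KSDiff II CC r)
  have : BorelSpace (KSDiff II CC r × KSDiff II CC r) := ⟨rfl⟩
  have hc : Continuous (fun q : Pm × Pm => (toKS hα r (emb q.1), toKS hα r (emb q.2))) :=
    ((toKS_continuous hα r).comp (emb_continuous.comp continuous_fst)).prodMk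
      ((toKS_continuous hα r).comp (emb_continuous.comp continuous_snd))
  have hm : Measurable (fun y => (ctr (s1 y), ctr (s2 y))) :=
    (meas_ctr s1 m1).prodMk (meas_ctr s2 m2)
  have hmeas := hc.measurable.comp hm
  apply hNb
  have hpre := hmeas hB
  convert hpre using 1
  ext y
  show y ∈ Nb ↔ TopConj (toKS hα r (emb (ctr (s1 y)))).1.map (toKS hα r (emb (ctr (s2 y)))).1.map
  rw [conj_iff]
  constructor
  · intro hy
    obtain ⟨π, hπ⟩ := hiso y hy
    obtain ⟨κ, hκ⟩ := fwd (s1 y) (s2 y) π hπ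
    refine ⟨(Homeomorph.refl T1).prodCongr κ, fun q => ?_⟩
    refine Prod.ext rfl ?_
    exact hκ q.2
  · rintro ⟨H, hH⟩
    by_contra hy
    have hw := hwf y hy
    obtain ⟨S, hS1, hS2⟩ := hdl y
    have hH' : ∀ p, H.symm (tor (Real.sqrt 2) (s2 y) p) = tor (Real.sqrt 2) (s1 y) (H.symm p) := by
      intro p
      rw [Homeomorph.symm_apply_eq]
      have := hH (H.symm p)
      rw [H.apply_symm_apply] at this
      exact this.symm
    have hw2 : WellFounded (r2 y) := bwd (s2 y) (s1 y) hα H.symm hH' hw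
    obtain ⟨s, hs, hmin⟩ := hw2.has_min S hS1
    obtain ⟨⟨m, hm⟩, h3⟩ := hS2 s hs
    obtain ⟨s', hs', -, h4⟩ := h3 m hm
    exact hmin s' hs' h4

end Pool.Agent.H410R3.KS
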